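import Pool.Agent.TH57.AZ.Tens

/-!
The projection of the basis vector at `1` to the kernel of a convolution operator: it is a
Hermitian function.
-/

set_option autoImplicit false

open scoped InnerProductSpace ENNReal

namespace Pool.Agent.R625.AZ

open Pool.Agent.TH57.AZ

universe u

variable {G : Type u} [Group G]

open Classical in
/-- the projection of the basis vector at `1`: it lies in the kernel, and it represents the
evaluation at `1` on the kernel -/
theorem exists_repr (α : G →₀ ℂ) : ∃ u ∈ kern α, u 1 = (kd α : ℂ) ∧ ‖u‖ ^ 2 = kd α ∧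
    ∀ v ∈ kern α, ⟪u, v⟫_ℂ = v 1 := by
  have hc := isClosed_kerS α
  have : CompleteSpace (kerS α) := hc.completeSpace_coe
  set δ : lp (fun _ : G => ℂ) 2 := lp.single 2 (1 : G) (1 : ℂ) with hδ
  set u : lp (fun _ : G => ℂ) 2 := (kerS α).starProjection δ with hu
  have humem : u ∈ kerS α := Submodule.starProjection_apply_mem _ _
  have hrep : ∀ v ∈ kern α, ⟪u, v⟫_ℂ = v 1 := by
    intro v hv
    have h := Submodule.sub_starProjection_mem_orthogonal (K := kerS α) δ
    have h2 : ⟪v, δ - u⟫_ℂ = 0 := (Submodule.mem_orthogonal _ _).1 h v hv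
    have h3 : ⟪δ - u, v⟫_ℂ = 0 := by
      rw [← inner_conj_symm, h2, map_zero]
    rw [inner_sub_left, sub_eq_zero] at h3
    rw [← h3, hδ, inner_single]
  have h5 : u 1 = ((‖u‖ ^ 2 : ℝ) : ℂ) := by
    rw [← hrep u humem, inner_self_eq_norm_sq_to_K]
    norm_cast
  have h1 : Metric.infDist δ (kern α) = ‖δ - u‖ := by
    rw [← coe_kerS, hu, Submodule.starProjection_minimal, Metric.infDist_eq_iInf]
    simp only [dist_eq_norm]
    rfl
  have h6 : ‖δ - u‖ ^ 2 = 1 - ‖u‖ ^ 2 := by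
    rw [norm_sub_sq_single, h5, Complex.ofReal_re]
    ring
  have h7 : kd α = ‖u‖ ^ 2 := by
    unfold kd
    rw [← hδ, h1, h6]
    ring
  refine ⟨u, humem, ?_, h7.symm, hrep⟩
  rw [h5, h7]

/-- the inner product with a right translate, as a sum -/
theorem inner_rt (a : G) (f : lp (fun _ : G => ℂ) 2) :
    ⟪f, rt a⁻¹ f⟫_ℂ = (starRingEnd ℂ) ⟪f, rt a f⟫_ℂ := by
  rw [inner_conj_symm, lp.inner_eq_tsum, lp.inner_eq_tsum]
  rw [← (Equiv.mulRight a).tsum_eq]
  refine tsum_congr fun x => ?_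
  simp only [Equiv.coe_mulRight, rt_apply, mul_inv_cancel_right]

/-- a function in the kernel which is Hermitian, real at `1`, and of full energy -/
theorem exists_herm (α : G →₀ ℂ) : ∃ u ∈ kern α, u 1 = (kd α : ℂ) ∧ ‖u‖ ^ 2 = kd α ∧
    ∀ g : G, ‖u g⁻¹‖ = ‖u g‖ := by
  obtain ⟨u, hu, h1, h2, h3⟩ := exists_repr α
  refine ⟨u, hu, h1, h2, fun g => ?_⟩
  have h4 : ∀ a : G, ⟪u, rt a u⟫_ℂ = u a := by
    intro a
    rw [h3 _ (rt_mem α a hu), rt_apply, one_mul]
  have h5 := inner_rt g u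
  rw [h4, h4] at h5
  rw [h5, RCLike.norm_conj]

/-- finitely many distinct values carry at most the whole energy -/
theorem energy_le {X : Type*} [Fintype X] (u : lp (fun _ : G => ℂ) 2) (e : X → G)
    (he : Function.Injective e) : ∑ x, ‖u (e x)‖ ^ 2 ≤ ‖u‖ ^ 2 := by
  classical
  have h := norm_sq_eq u
  have h2 : ∑ x, ‖u (e x)‖ ^ 2 = ∑ g ∈ Finset.univ.image e, ‖u g‖ ^ 2 := by
    rw [Finset.sum_image (fun a _ b _ hab => he hab)]
  rw [h2]
  exact sum_le_hasSum _ (fun _ _ => by positivity) h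

/-- the convolution equation in terms of `Finsupp.sum` -/
theorem kern_iff (α : G →₀ ℂ) (u : lp (fun _ : G => ℂ) 2) :
    u ∈ kern α ↔ ∀ g : G, α.sum (fun k c => c * u (k⁻¹ * g)) = 0 := Iff.rfl

end Pool.Agent.R625.AZ
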