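import Pool.Agent.R625.AZ.Rows

/-!
The projection to the orthogonal complement of the kernel of finitely many rows is approximated by
elements of the group algebra which vanish on the kernel.
-/

set_option autoImplicit false
set_option linter.unusedSectionVars false

open scoped InnerProductSpace ENNReal

namespace Pool.Agent.R625.AZ

open Pool.Agent.W656.VA
open Pool.Agent.H80R2
open Pool.Agent.H80R2.BC (L2 GMat vdim IsTr LInv Equi act kerA pt vals Generic TorDiv)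
open Pool.Agent.H812R3

variable {κ G : Type} [Group G] [Fintype κ]

/-- elements which vanish on the kernel -/
noncomputable def Ann (A : GMat κ Unit G) : Submodule ℂ (G →₀ ℂ) where
  carrier := {γ | ∀ f ∈ kerA A, ∀ g, γ.sum (fun h c => c * f ((), g * h)) = 0}
  zero_mem' := by
    intro f _ g
    exact Finsupp.sum_zero_index
  add_mem' := by
    intro a b ha hb f hf g
    rw [Finsupp.sum_add_index' (fun _ => zero_mul _) (fun _ _ _ => add_mul _ _ _), ha f hf g,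
      hb f hf g, add_zero]
  smul_mem' := by
    intro c a ha f hf g
    rw [Finsupp.sum_smul_index (fun _ => zero_mul _)]
    have := ha f hf g
    rw [Finsupp.sum] at this ⊢
    simp only [mul_assoc]
    rw [← Finset.mul_sum, this, mul_zero]

/-- the vector of an element -/
noncomputable def J : (G →₀ ℂ) →ₗ[ℂ] L2 (Unit × G) :=
  Finsupp.linearCombination ℂ (fun h => (de ((), h⁻¹) : L2 (Unit × G)))

theorem inner_J (γ : G →₀ ℂ) (f : L2 (Unit × G)) :
    ⟪J γ, f⟫_ℂ = γ.sum (fun h c => (starRingEnd ℂ) c * f ((), h⁻¹)) := by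
  unfold J
  rw [Finsupp.linearCombination_apply, Finsupp.sum, sum_inner, Finsupp.sum]
  refine Finset.sum_congr rfl fun h _ => ?_
  rw [inner_smul_left, inner_de]

theorem J_apply (γ : G →₀ ℂ) (g : G) : J γ ((), g) = γ g⁻¹ := by
  classical
  have h1 : (starRingEnd ℂ) (J γ ((), g)) = (starRingEnd ℂ) (γ g⁻¹) := by
    rw [← inner_de_right, inner_J, Finsupp.sum, Finset.sum_eq_single g⁻¹]
    · rw [inv_inv, de_apply_self, mul_one]
    · intro b _ hb
      rw [de_apply_ne, mul_zero]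
      intro h
      apply hb
      rw [← (Prod.mk.inj h).2, inv_inv]
    · intro h
      rw [Finsupp.notMem_support_iff.1 h, map_zero, zero_mul]
  exact (starRingEnd ℂ).injective h1

theorem norm_J (γ : G →₀ ℂ) : ‖J γ‖ ^ 2 = γ.sum (fun _ z => ‖z‖ ^ 2) := by
  have h := inner_self_eq_norm_sq_to_K (𝕜 := ℂ) (J γ)
  rw [inner_J] at h
  have h2 : γ.sum (fun h c => (starRingEnd ℂ) c * J γ ((), h⁻¹)) =
      ((γ.sum (fun _ z => ‖z‖ ^ 2) : ℝ) : ℂ) := by
    rw [Finsupp.sum, Finsupp.sum]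
    push_cast
    refine Finset.sum_congr rfl fun h _ => ?_
    rw [J_apply, inv_inv, mul_comm, Complex.mul_conj, Complex.normSq_eq_norm_sq]
    push_cast
    rfl
  rw [h2] at h
  have h3 : (((γ.sum (fun _ z => ‖z‖ ^ 2) : ℝ)) : ℂ) = ((‖J γ‖ ^ 2 : ℝ) : ℂ) := by
    rw [h]
    push_cast
    rfl
  exact (Complex.ofReal_injective h3).symm

/-- `f*(g) = conj f(g⁻¹)` -/
noncomputable def fst (f : L2 (Unit × G)) : L2 (Unit × G) :=
  star (KP.pull (fun p : Unit × G => (p.1, p.2⁻¹)) (by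
    rintro ⟨a, b⟩ ⟨c, d⟩ h
    simpa using h) f)

theorem fst_apply (f : L2 (Unit × G)) (g : G) :
    fst f ((), g) = (starRingEnd ℂ) (f ((), g⁻¹)) := by
  unfold fst
  rw [lp.star_apply]
  rfl

theorem inner_fst (f x : L2 (Unit × G)) (hx : ∀ g, x ((), g⁻¹) = (starRingEnd ℂ) (x ((), g))) :
    ⟪x, f⟫_ℂ = ⟪fst f, x⟫_ℂ := by
  rw [lp.inner_eq_tsum, lp.inner_eq_tsum]
  rw [← ((Equiv.refl Unit).prodCongr (Equiv.inv G)).tsum_eq (fun p => ⟪fst f p, x p⟫_ℂ)]
  refine tsum_congr fun p => ?_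
  obtain ⟨⟨⟩, g⟩ := p
  show ⟪x ((), g), f ((), g)⟫_ℂ = ⟪fst f ((), g⁻¹), x ((), g⁻¹)⟫_ℂ
  rw [fst_apply, inv_inv, hx]
  simp only [RCLike.inner_apply, RingHomCompTriple.comp_apply, RingHom.id_apply]
  ring

theorem mem_fst (A : GMat κ Unit G) (f : L2 (Unit × G)) (hf : f ∈ ((Ann A).map J)ᗮ) :
    fst f ∈ kerA A := by
  rw [mem_kerA]
  intro k g
  have h1 : (A k ()).mapDomain (fun h => g * h) ∈ Ann A := by
    intro φ hφ r
    rw [sum_map (fun h => g * h) (A k ()) (fun h => φ ((), r * h))]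
    have h2 := hφ k (r * g)
    unfold act at h2
    simp only [Finset.univ_unique, PUnit.default_eq_unit, Finset.sum_singleton] at h2
    simpa only [mul_assoc] using h2
  have h3 : ⟪J ((A k ()).mapDomain (fun h => g * h)), f⟫_ℂ = 0 :=
    (Submodule.mem_orthogonal _ _).1 hf _ ⟨_, h1, rfl⟩
  rw [inner_J, Finsupp.sum_mapDomain_index (fun _ => by rw [map_zero, zero_mul])
    (fun _ _ _ => by rw [map_add, add_mul])] at h3
  unfold act
  simp only [Finset.univ_unique, PUnit.default_eq_unit, Finset.sum_singleton]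
  have h4 := congrArg (starRingEnd ℂ) h3
  rw [map_zero, Finsupp.sum, map_sum] at h4
  rw [Finsupp.sum, ← h4]
  refine Finset.sum_congr rfl fun h _ => ?_
  rw [fst_apply, map_mul, Complex.conj_conj]

/-- **Approximation.** -/
theorem dense (A : GMat κ Unit G) (v : ℝ) (hv : vdim (kerA A) = v) (hv1 : v < 1) (c : ℝ)
    (hc : 1 / (1 - v) < c) : ∃ γ ∈ Ann A, γ 1 = 1 ∧ γ.sum (fun _ z => ‖z‖ ^ 2) ≤ c := by
  obtain ⟨u, hu1, hu2, hu3⟩ := exists_vec (isClosed_kerA A)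
  set ξ := u () with hξ
  have hξK : ξ ∈ kerA A := hu1 ()
  have hrep : ∀ x ∈ kerA A, ⟪ξ, x⟫_ℂ = x ((), 1) := hu2 ()
  rw [hv] at hu3
  simp only [Finset.univ_unique, PUnit.default_eq_unit, Finset.sum_singleton] at hu3
  have hself : ((‖ξ‖ ^ 2 : ℝ) : ℂ) = ξ ((), 1) := by
    rw [← hrep ξ hξK, inner_self_eq_norm_sq_to_K]
    push_cast
    rfl
  have hv2 : v = ‖ξ‖ ^ 2 := by
    rw [hu3, ← hξ, ← hself, Complex.ofReal_re]
  have hherm : ∀ g, ξ ((), g⁻¹) = (starRingEnd ℂ) (ξ ((), g)) := by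
    intro g
    have h1 : ⟪ξ, lt Unit g ξ⟫_ℂ = ξ ((), g) := by
      rw [hrep _ (linv_lt (linv_kerA A) g hξK), lt_apply, mul_one]
    have h2 : ⟪ξ, lt Unit g⁻¹ ξ⟫_ℂ = ξ ((), g⁻¹) := by
      rw [hrep _ (linv_lt (linv_kerA A) g⁻¹ hξK), lt_apply, mul_one]
    rw [← h2, ← inner_lt_left, ← inner_conj_symm, h1]
  set δ : L2 (Unit × G) := de ((), (1 : G)) with hδ
  set x0 := δ - ξ with hx0
  have hmem : x0 ∈ ((Ann A).map J).topologicalClosure := by
    rw [← Submodule.orthogonal_orthogonal_eq_closure, Submodule.mem_orthogonal']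
    intro f hf
    have h1 := hrep _ (mem_fst A f hf)
    rw [fst_apply, inv_one] at h1
    have h2 : ⟪ξ, f⟫_ℂ = f ((), 1) := by
      rw [inner_fst f ξ hherm, ← inner_conj_symm, h1, Complex.conj_conj]
    rw [hx0, inner_sub_left, h2, hδ, inner_de, sub_self]
  have hx1 : x0 ((), 1) = ((1 - v : ℝ) : ℂ) := by
    rw [hx0, lp.coeFn_sub, Pi.sub_apply, hδ, de_apply_self, ← hself, hv2]
    push_cast
    rfl
  have hx2 : ‖x0‖ ^ 2 = 1 - v := by
    rw [hx0, @norm_sub_sq ℂ, hδ, norm_de, inner_de, ← hself]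
    have : RCLike.re (((‖ξ‖ ^ 2 : ℝ) : ℂ)) = ‖ξ‖ ^ 2 := Complex.ofReal_re _
    rw [this, hv2]
    ring
  have h1v : 0 < 1 - v := by linarith
  have hcont : Continuous (fun x : L2 (Unit × G) => ‖x‖ ^ 2 - c * ‖⟪δ, x⟫_ℂ‖ ^ 2) := by
    fun_prop
  have hneg : ‖x0‖ ^ 2 - c * ‖⟪δ, x0⟫_ℂ‖ ^ 2 < 0 := by
    rw [hδ, inner_de, hx1, hx2, Complex.norm_real, Real.norm_eq_abs, sq_abs]
    rw [div_lt_iff₀ h1v] at hc
    nlinarith
  have hopen : IsOpen {x : L2 (Unit × G) | ‖x‖ ^ 2 - c * ‖⟪δ, x⟫_ℂ‖ ^ 2 < 0} :=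
    isOpen_lt hcont continuous_const
  have hmem' : x0 ∈ closure (((Ann A).map J : Submodule ℂ (L2 (Unit × G))) :
      Set (L2 (Unit × G))) := hmem
  obtain ⟨y, hy1, hy2⟩ := mem_closure_iff.1 hmem' _ hopen hneg
  obtain ⟨γ, hγ, rfl⟩ := hy2
  have hy3 : ‖J γ‖ ^ 2 - c * ‖⟪δ, J γ⟫_ℂ‖ ^ 2 < 0 := hy1
  rw [hδ, inner_de, J_apply, inv_one, norm_J] at hy3
  have hne : γ 1 ≠ 0 := by
    intro h0
    rw [h0, norm_zero] at hy3
    have : 0 ≤ γ.sum (fun _ z => ‖z‖ ^ 2) := Finset.sum_nonneg fun _ _ => by positivity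
    norm_num at hy3
    linarith
  have hpos : 0 < ‖γ 1‖ ^ 2 := by
    have := norm_pos_iff.2 hne
    positivity
  refine ⟨(γ 1)⁻¹ • γ, (Ann A).smul_mem _ hγ, ?_, ?_⟩
  · rw [Finsupp.smul_apply, smul_eq_mul, inv_mul_cancel₀ hne]
  · rw [Finsupp.sum_smul_index (fun _ => by simp)]
    have h5 : γ.sum (fun _ z => ‖(γ 1)⁻¹ * z‖ ^ 2) =
        (‖γ 1‖ ^ 2)⁻¹ * γ.sum (fun _ z => ‖z‖ ^ 2) := by
      rw [Finsupp.sum, Finsupp.sum, Finset.mul_sum]
      refine Finset.sum_congr rfl fun h _ => ?_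
      rw [norm_mul, norm_inv, mul_pow, inv_pow]
    rw [h5, inv_mul_le_iff₀ hpos]
    linarith

end Pool.Agent.R625.AZ
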