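import Mathlib

/-!
The elements `g w g' w⁻¹` with nontrivial `g`, `g'` freely generate a free semigroup in the free
product of a group with a group containing the nontrivial element `w`.
-/

set_option autoImplicit false

namespace Pool.Agent.R625.AZ

open Monoid

section generic

variable {M : Bool → Type} [∀ b, Group (M b)]

/-- put four letters in front of a word which does not start in the second factor -/
noncomputable def four (g g' : M true) (w w' : M false) (hg : g ≠ 1) (hg' : g' ≠ 1) (hw : w ≠ 1)
    (hw' : w' ≠ 1)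
    (x : CoprodI.Word M) (hx : x.fstIdx ≠ some false) : CoprodI.Word M :=
  CoprodI.Word.cons g
    (CoprodI.Word.cons w
      (CoprodI.Word.cons g'
        (CoprodI.Word.cons w' x hx hw')
        (by rw [CoprodI.Word.fstIdx_cons]; simp) hg')
      (by rw [CoprodI.Word.fstIdx_cons]; simp) hw)
    (by rw [CoprodI.Word.fstIdx_cons]; simp) hg

theorem four_fst (g g' : M true) (w w' : M false) (hg : g ≠ 1) (hg' : g' ≠ 1) (hw : w ≠ 1)
    (hw' : w' ≠ 1)
    (x : CoprodI.Word M) (hx : x.fstIdx ≠ some false) :
    (four g g' w w' hg hg' hw hw' x hx).fstIdx ≠ some false := by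
  unfold four
  rw [CoprodI.Word.fstIdx_cons]
  simp

theorem four_list (g g' : M true) (w w' : M false) (hg : g ≠ 1) (hg' : g' ≠ 1) (hw : w ≠ 1)
    (hw' : w' ≠ 1)
    (x : CoprodI.Word M) (hx : x.fstIdx ≠ some false) :
    (four g g' w w' hg hg' hw hw' x hx).toList =
      [⟨true, g⟩, ⟨false, w⟩, ⟨true, g'⟩, ⟨false, w'⟩] ++ x.toList := rfl

theorem four_prod (g g' : M true) (w w' : M false) (hg : g ≠ 1) (hg' : g' ≠ 1) (hw : w ≠ 1)
    (hw' : w' ≠ 1)
    (x : CoprodI.Word M) (hx : x.fstIdx ≠ some false) :
    (four g g' w w' hg hg' hw hw' x hx).prod =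
      CoprodI.of g * CoprodI.of w * CoprodI.of g' * CoprodI.of w' * x.prod := by
  unfold four
  rw [CoprodI.Word.prod_cons, CoprodI.Word.prod_cons, CoprodI.Word.prod_cons,
    CoprodI.Word.prod_cons]
  simp only [mul_assoc]

/-- pairs of nontrivial elements -/
abbrev Pr (G : Type) [Group G] : Type := {p : G × G // p.1 ≠ 1 ∧ p.2 ≠ 1}

/-- the reduced word of a list of pairs -/
noncomputable def rw' (w w' : M false) (hw : w ≠ 1) (hw' : w' ≠ 1) :
    (l : List (Pr (M true))) → {x : CoprodI.Word M // x.fstIdx ≠ some false}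
  | [] => ⟨CoprodI.Word.empty, by simp [CoprodI.Word.fstIdx, CoprodI.Word.empty]⟩
  | p :: l => ⟨four p.1.1 p.1.2 w w' p.2.1 p.2.2 hw hw' (rw' w w' hw hw' l).1
      (rw' w w' hw hw' l).2,
      four_fst _ _ _ _ _ _ _ _ _ _⟩

/-- the letters of a list of pairs -/
def letters (w w' : M false) : List (Pr (M true)) → List (Σ b, M b)
  | [] => []
  | p :: l => [⟨true, p.1.1⟩, ⟨false, w⟩, ⟨true, p.1.2⟩, ⟨false, w'⟩] ++ letters w w' l

theorem rw'_cons (w w' : M false) (hw : w ≠ 1) (hw' : w' ≠ 1) (p : Pr (M true))
    (l : List (Pr (M true))) : (rw' w w' hw hw' (p :: l)).1 =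
      four p.1.1 p.1.2 w w' p.2.1 p.2.2 hw hw' (rw' w w' hw hw' l).1 (rw' w w' hw hw' l).2 := rfl

theorem rw'_list (w w' : M false) (hw : w ≠ 1) (hw' : w' ≠ 1) (l : List (Pr (M true))) :
    (rw' w w' hw hw' l).1.toList = letters w w' l := by
  induction l with
  | nil => rfl
  | cons p l ih =>
    rw [rw'_cons, four_list, ih]
    rfl

theorem letters_inj (w w' : M false) :
    Function.Injective (letters w w' : List (Pr (M true)) → _) := by
  intro l
  induction l with
  | nil =>
    intro l' h
    cases l' with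
    | nil => rfl
    | cons p l' => simp [letters] at h
  | cons p l ih =>
    intro l' h
    cases l' with
    | nil => simp [letters] at h
    | cons q l' =>
      unfold letters at h
      simp only [List.cons_append, List.nil_append, List.cons.injEq, true_and, Sigma.mk.injEq,
        heq_eq_eq] at h
      obtain ⟨h1, h2, h3⟩ := h
      have h4 := ih h3
      have h5 : p = q := Subtype.ext (Prod.ext h1 h2)
      rw [h4, h5]

/-- the value in the free product -/
noncomputable def toI (M : Bool → Type) [∀ b, Group (M b)] :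
    Coprod (M true) (M false) →* CoprodI M :=
  Coprod.lift CoprodI.of CoprodI.of

theorem toI_inl (g : M true) : toI M (Coprod.inl g) = CoprodI.of g := by
  unfold toI
  rw [Coprod.lift_apply_inl]

theorem toI_inr (g : M false) : toI M (Coprod.inr g) = CoprodI.of g := by
  unfold toI
  rw [Coprod.lift_apply_inr]

/-- the element `g w g' w⁻¹` -/
def sw {G H : Type} [Group G] [Group H] (w : H) (p : Pr G) : Coprod G H :=
  Coprod.inl p.1.1 * Coprod.inr w * Coprod.inl p.1.2 * Coprod.inr w⁻¹

theorem toI_sw (w : M false) (p : Pr (M true)) : toI M (sw w p) =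
    CoprodI.of p.1.1 * CoprodI.of w * CoprodI.of p.1.2 * CoprodI.of w⁻¹ := by
  unfold sw
  rw [map_mul, map_mul, map_mul, toI_inl, toI_inl, toI_inr, toI_inr]

theorem toI_list (w : M false) (hw : w ≠ 1) (hw' : w⁻¹ ≠ 1) (l : List (Pr (M true))) :
    toI M ((l.map (sw w)).prod) = (rw' w w⁻¹ hw hw' l).1.prod := by
  induction l with
  | nil =>
    rw [List.map_nil, List.prod_nil, map_one]
    exact CoprodI.Word.prod_empty.symm
  | cons p l ih =>
    rw [List.map_cons, List.prod_cons, map_mul, ih, toI_sw, rw'_cons, four_prod]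

theorem word_inj : Function.Injective (CoprodI.Word.prod : CoprodI.Word M → _) := by
  classical
  exact (CoprodI.Word.equiv (M := M)).symm.injective

theorem free_sw_gen (w : M false) (hw : w ≠ 1) {ι : Type} (φ : ι → Pr (M true))
    (hφ : Function.Injective φ) :
    Function.Injective (FreeMonoid.lift (fun i => sw w (φ i)) :
      FreeMonoid ι →* Coprod (M true) (M false)) := by
  intro a b hab
  have hw' : w⁻¹ ≠ 1 := inv_ne_one.2 hw
  have h1 : ∀ c : FreeMonoid ι, toI M (FreeMonoid.lift (fun i => sw w (φ i)) c) =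
      (rw' w w⁻¹ hw hw' ((FreeMonoid.toList c).map φ)).1.prod := by
    intro c
    rw [FreeMonoid.lift_apply, ← toI_list, List.map_map]
    rfl
  have h2 := congrArg (toI M) hab
  rw [h1, h1] at h2
  have h3 := congrArg CoprodI.Word.toList (word_inj h2)
  rw [rw'_list, rw'_list] at h3
  have h4 := letters_inj w w⁻¹ h3
  exact FreeMonoid.toList.injective (List.map_injective_iff.2 hφ h4)

end generic

/-- the two factors -/
def Fac (G H : Type) : Bool → Type
  | true => G
  | false => H

instance instFac (G H : Type) [Group G] [Group H] : ∀ b, Group (Fac G H b)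
  | true => inferInstanceAs (Group G)
  | false => inferInstanceAs (Group H)

/-- **The free semigroup.** -/
theorem free_sw {G H : Type} [Group G] [Group H] (w : H) (hw : w ≠ 1) {ι : Type} (φ : ι → Pr G)
    (hφ : Function.Injective φ) :
    Function.Injective (FreeMonoid.lift (fun i => sw w (φ i)) : FreeMonoid ι →* Coprod G H) :=
  free_sw_gen (M := Fac G H) w hw φ hφ

end Pool.Agent.R625.AZ
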