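import Pool.Agent.R625.AZ.Base

/-!
Kernel dimensions and relations of the support: weights on the support, and the energy of a
function in the kernel on the reduced words of a given length.
-/

set_option autoImplicit false
set_option linter.unusedSectionVars false

open scoped InnerProductSpace ENNReal Classical

namespace Pool.Agent.R625.AZ

open Pool.Agent.TH57.AZ

universe u

variable {G : Type u} [Group G]

/-- the weights of one equation -/
def Good (T : Finset G) (a : G → ℂ) (h : G → ℝ) : Prop :=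
  (∀ t ∈ T, 0 ≤ h t) ∧ (∀ t ∈ T, h t ≤ 1) ∧ ∑ t ∈ T, h t = 1 ∧
    ∀ t ∈ T, ∀ y : G → ℝ, (∀ s, 0 ≤ y s) → ‖a t‖ * y t ≤ ∑ s ∈ T.erase t, ‖a s‖ * y s →
      h t * y t ^ 2 ≤ ∑ s ∈ T.erase t, (1 - h s) * y s ^ 2

theorem good_dom (T : Finset G) (a : G → ℂ) (m : G) (hm : m ∈ T)
    (h0 : a m ≠ 0) (hq : ∑ s ∈ T.erase m, ‖a s‖ ^ 2 ≤ ‖a m‖ ^ 2) :
    Good T a (fun t => if t = m then 1 else 0) := by
  have hpos : 0 < ‖a m‖ ^ 2 := by
    have := norm_pos_iff.2 h0
    positivity
  refine ⟨fun t _ => by dsimp only; split_ifs <;> norm_num,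
    fun t _ => by dsimp only; split_ifs <;> norm_num, ?_, ?_⟩
  · rw [Finset.sum_ite_eq' T m, if_pos hm]
  · intro t ht y hy hle
    beta_reduce
    by_cases htm : t = m
    · subst htm
      have h1 : ∀ s ∈ T.erase t, (1 - (if s = t then (1 : ℝ) else 0)) * y s ^ 2 = y s ^ 2 := by
        intro s hs
        rw [if_neg (Finset.mem_erase.1 hs).1]
        ring
      rw [if_pos rfl, Finset.sum_congr rfl h1]
      have h2 := Finset.sum_mul_sq_le_sq_mul_sq (T.erase t) (fun s => ‖a s‖) y
      have h3 : (‖a t‖ * y t) ^ 2 ≤ (∑ s ∈ T.erase t, ‖a s‖ * y s) ^ 2 :=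
        pow_le_pow_left₀ (mul_nonneg (norm_nonneg _) (hy t)) hle 2
      have h4 : 0 ≤ ∑ s ∈ T.erase t, y s ^ 2 := Finset.sum_nonneg fun _ _ => by positivity
      have h5 : ‖a t‖ ^ 2 * y t ^ 2 ≤ ‖a t‖ ^ 2 * ∑ s ∈ T.erase t, y s ^ 2 := by
        calc ‖a t‖ ^ 2 * y t ^ 2 = (‖a t‖ * y t) ^ 2 := by ring
          _ ≤ _ := h3.trans h2
          _ ≤ _ := mul_le_mul_of_nonneg_right hq h4
      rw [one_mul]
      exact le_of_mul_le_mul_left h5 hpos
    · rw [if_neg htm, zero_mul]
      refine Finset.sum_nonneg fun s _ => mul_nonneg ?_ (by positivity)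
      split_ifs <;> norm_num

/-- the smaller root -/
noncomputable def rt' (κ A : ℝ) : ℝ := (1 - √(1 - 4 * κ * A)) / 2

theorem rt'_prop {κ A : ℝ} (h0 : 0 ≤ κ * A) (h1 : 4 * (κ * A) ≤ 1) :
    0 ≤ rt' κ A ∧ rt' κ A ≤ 1 / 2 ∧ rt' κ A * (1 - rt' κ A) = κ * A ∧ κ * A ≤ rt' κ A := by
  unfold rt'
  have hD : 0 ≤ 1 - 4 * κ * A := by linarith
  have hs := Real.sq_sqrt hD
  have hn := Real.sqrt_nonneg (1 - 4 * κ * A)
  have hle : √(1 - 4 * κ * A) ≤ 1 - 2 * (κ * A) := by
    apply Real.sqrt_le_iff.2
    constructor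
    · linarith
    · nlinarith
  refine ⟨by linarith, by linarith, ?_, by linarith⟩
  have : (1 - √(1 - 4 * κ * A)) / 2 * (1 - (1 - √(1 - 4 * κ * A)) / 2) =
      (1 - √(1 - 4 * κ * A) ^ 2) / 4 := by ring
  rw [this, hs]
  ring

theorem good_bal (T : Finset G) (a : G → ℂ) (m : G) (hm : m ∈ T)
    (ha : ∀ t ∈ T, a t ≠ 0) (hmax : ∀ t ∈ T, ‖a t‖ ≤ ‖a m‖)
    (hq : ‖a m‖ ^ 2 < ∑ s ∈ T.erase m, ‖a s‖ ^ 2) : ∃ h, Good T a h := by
  have hm0 : 0 < ‖a m‖ ^ 2 := by
    have := norm_pos_iff.2 (ha m hm)
    positivity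
  set A : G → ℝ := fun s => ‖a s‖ ^ 2 with hA
  set q : ℝ := ∑ s ∈ T.erase m, A s with hqdef
  have hAm : ∀ t ∈ T, A t ≤ A m := fun t ht => pow_le_pow_left₀ (norm_nonneg _) (hmax t ht) 2
  have hA0 : ∀ t, 0 ≤ A t := fun t => by positivity
  have hAmpos : 0 < A m := hm0
  have hq' : A m < q := hq
  have hqpos : 0 < q := hAmpos.trans hq'
  set κ : ℝ → ℝ := fun y => y * (1 - y) / A m with hκ
  have hκ1 : ∀ y, 0 ≤ y → y ≤ 1 → ∀ t ∈ T, 0 ≤ κ y * A t ∧ 4 * (κ y * A t) ≤ 1 := by
    intro y hy0 hy1 t ht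
    have h1 : 0 ≤ κ y := div_nonneg (mul_nonneg hy0 (by linarith)) (hA0 m)
    refine ⟨mul_nonneg h1 (hA0 t), ?_⟩
    have h2 : κ y * A t ≤ κ y * A m := mul_le_mul_of_nonneg_left (hAm t ht) h1
    have h3 : κ y * A m = y * (1 - y) := by
      rw [hκ]
      exact div_mul_cancel₀ _ hAmpos.ne'
    nlinarith [sq_nonneg (2 * y - 1)]
  set F : ℝ → ℝ := fun y => y + ∑ s ∈ T.erase m, rt' (κ y) (A s) with hF
  have hcont : Continuous F := by
    rw [hF]
    unfold rt'
    rw [hκ]
    fun_prop
  have hF0 : F 0 = 0 := by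
    rw [hF]
    dsimp only
    rw [zero_add]
    refine Finset.sum_eq_zero fun s _ => ?_
    unfold rt'
    rw [hκ]
    simp
  set y0 : ℝ := (1 + A m / q) / 2 with hy0
  have hr : A m / q < 1 := (div_lt_one hqpos).2 hq'
  have hr0 : 0 < A m / q := by positivity
  have hy01 : y0 < 1 := by rw [hy0]; linarith
  have hy00 : 0 < y0 := by rw [hy0]; linarith
  have hF1 : 1 ≤ F y0 := by
    have h1 : κ y0 * q ≤ ∑ s ∈ T.erase m, rt' (κ y0) (A s) := by
      rw [hqdef, Finset.mul_sum]
      refine Finset.sum_le_sum fun s hs => ?_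
      have h2 := hκ1 y0 hy00.le hy01.le s (Finset.mem_of_mem_erase hs)
      exact (rt'_prop h2.1 h2.2).2.2.2
    have h3 : κ y0 * q = y0 * (1 - y0) * (q / A m) := by
      rw [hκ]
      ring
    have h4 : A m / q < y0 := by rw [hy0]; linarith
    have h5 : 1 ≤ y0 * (q / A m) := by
      rw [← mul_div_assoc, le_div_iff₀ hAmpos, one_mul]
      rw [div_lt_iff₀ hqpos] at h4
      exact h4.le
    have h6 : 1 ≤ y0 + κ y0 * q := by
      rw [h3]
      nlinarith
    exact h6.trans (by rw [hF]; dsimp only; linarith)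
  obtain ⟨y, hy, hy1⟩ := intermediate_value_Icc hy00.le hcont.continuousOn
    (show (1 : ℝ) ∈ Set.Icc (F 0) (F y0) from ⟨by rw [hF0]; norm_num, hF1⟩)
  have hyne : y ≠ 0 := by
    intro h
    rw [h, hF0] at hy1
    norm_num at hy1
  have hypos : 0 < y := lt_of_le_of_ne hy.1 (Ne.symm hyne)
  have hylt : y < 1 := lt_of_le_of_lt hy.2 hy01
  have hκpos : 0 < κ y := div_pos (mul_pos hypos (by linarith)) hAmpos
  have hp := fun t ht => rt'_prop (hκ1 y hypos.le hylt.le t ht).1 (hκ1 y hypos.le hylt.le t ht).2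
  set h : G → ℝ := fun t => if t = m then y else rt' (κ y) (A t) with hh
  have hm1 : h m = y := by rw [hh]; simp
  have hne1 : ∀ t, t ≠ m → h t = rt' (κ y) (A t) := by
    intro t ht
    rw [hh]
    simp [ht]
  have hnn : ∀ t ∈ T, 0 ≤ h t := by
    intro t ht
    by_cases htm : t = m
    · rw [htm, hm1]; exact hypos.le
    · rw [hne1 t htm]; exact (hp t ht).1
  have hlt : ∀ t ∈ T, h t < 1 := by
    intro t ht
    by_cases htm : t = m
    · rw [htm, hm1]; exact hylt
    · rw [hne1 t htm]; linarith [(hp t ht).2.1]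
  have hprod : ∀ t ∈ T, h t * (1 - h t) = κ y * A t := by
    intro t ht
    by_cases htm : t = m
    · rw [htm, hm1, hκ]
      exact (div_mul_cancel₀ _ hAmpos.ne').symm
    · rw [hne1 t htm]; exact (hp t ht).2.2.1
  have hsum : ∑ t ∈ T, h t = 1 := by
    rw [← Finset.add_sum_erase T h hm, hm1, ← hy1, hF]
    dsimp only
    congr 1
    exact Finset.sum_congr rfl fun s hs => hne1 s (Finset.mem_erase.1 hs).1
  refine ⟨h, hnn, fun t ht => (hlt t ht).le, hsum, ?_⟩
  intro t ht z hz hle
  have h1t : 0 < 1 - h t := by linarith [hlt t ht]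
  set S := ∑ s ∈ T.erase t, (1 - h s) * z s ^ 2 with hS
  have hcs : (∑ s ∈ T.erase t, ‖a s‖ * z s) ^ 2 ≤
      (∑ s ∈ T.erase t, h s / κ y) * ∑ s ∈ T.erase t, (1 - h s) * z s ^ 2 := by
    refine Finset.sum_sq_le_sum_mul_sum_of_sq_le_mul _ ?_ ?_ fun s hs => le_of_eq ?_
    · intro s hs
      exact div_nonneg (hnn s (Finset.mem_of_mem_erase hs)) hκpos.le
    · intro s hs
      have := hlt s (Finset.mem_of_mem_erase hs)
      exact mul_nonneg (by linarith) (by positivity)
    · have h2 := hprod s (Finset.mem_of_mem_erase hs)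
      have h3 : A s = h s * (1 - h s) / κ y := by
        rw [h2, mul_div_cancel_left₀ _ hκpos.ne']
      rw [mul_pow]
      change A s * z s ^ 2 = _
      rw [h3]
      ring
  have hsumf : ∑ s ∈ T.erase t, h s / κ y = (1 - h t) / κ y := by
    rw [← Finset.sum_div]
    congr 1
    have := Finset.add_sum_erase T h ht
    linarith
  rw [hsumf] at hcs
  have h5 : (‖a t‖ * z t) ^ 2 ≤ (∑ s ∈ T.erase t, ‖a s‖ * z s) ^ 2 :=
    pow_le_pow_left₀ (mul_nonneg (norm_nonneg _) (hz t)) hle 2
  have h6 : A t * z t ^ 2 ≤ (1 - h t) / κ y * S := by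
    calc A t * z t ^ 2 = (‖a t‖ * z t) ^ 2 := by rw [mul_pow]
      _ ≤ _ := h5.trans hcs
  have h7 : (1 - h t) * (h t * z t ^ 2) ≤ (1 - h t) * S := by
    have h8 : κ y * (A t * z t ^ 2) ≤ κ y * ((1 - h t) / κ y * S) :=
      mul_le_mul_of_nonneg_left h6 hκpos.le
    have h9 : κ y * ((1 - h t) / κ y * S) = (1 - h t) * S := by
      field_simp
    rw [h9] at h8
    calc (1 - h t) * (h t * z t ^ 2) = (h t * (1 - h t)) * z t ^ 2 := by ring
      _ = κ y * (A t * z t ^ 2) := by rw [hprod t ht]; ring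
      _ ≤ _ := h8
  exact le_of_mul_le_mul_left h7 h1t

/-- **The weights exist.** -/
theorem exists_good (T : Finset G) (a : G → ℂ) (hT : T.Nonempty)
    (ha : ∀ t ∈ T, a t ≠ 0) : ∃ h, Good T a h := by
  obtain ⟨m, hm, hmax⟩ := Finset.exists_max_image T (fun t => ‖a t‖) hT
  rcases le_or_gt (∑ s ∈ T.erase m, ‖a s‖ ^ 2) (‖a m‖ ^ 2) with h | h
  · exact ⟨_, good_dom T a m hm (ha m hm) h⟩
  · exact good_bal T a m hm ha hmax h

/-- the relation between a value and the other ones of an equation, with weights -/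
theorem good_kern (α : G →₀ ℂ) (h : G → ℝ) (hg : Good α.support α h)
    {u : lp (fun _ : G => ℂ) 2} (hu : u ∈ kern α) (x t : G) (ht : t ∈ α.support) :
    h t * ‖u x‖ ^ 2 ≤ ∑ s ∈ α.support.erase t, (1 - h s) * ‖u (s⁻¹ * t * x)‖ ^ 2 := by
  have h1 := (kern_iff α u).1 hu (t * x)
  rw [Finsupp.sum, ← Finset.add_sum_erase _ _ ht, inv_mul_cancel_left] at h1
  have h2 := hg.2.2.2 t ht (fun s => ‖u (s⁻¹ * t * x)‖) (fun _ => norm_nonneg _) (by
    dsimp only
    rw [inv_mul_cancel, one_mul, ← norm_mul, eq_neg_of_add_eq_zero_left h1, norm_neg]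
    refine (norm_sum_le _ _).trans (le_of_eq (Finset.sum_congr rfl fun s _ => ?_))
    rw [norm_mul, mul_assoc s⁻¹])
  simpa only [inv_mul_cancel, one_mul] using h2

/-- the reduced words of a given length; the first letter is not the given one -/
noncomputable def words (T : Finset G) : ℕ → Option G → Finset (List (G × G))
  | 0, _ => {[]}
  | n + 1, o => (((T ×ˢ T).filter (fun p => o ≠ some p.1 ∧ p.1 ≠ p.2)).sigma
      (fun p => words T n (some p.2))).map
        ⟨fun x => x.1 :: x.2, by
          rintro ⟨a, b⟩ ⟨c, d⟩ h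
          simp only [List.cons.injEq] at h
          obtain ⟨rfl, rfl⟩ := h
          rfl⟩

/-- the value of a word -/
def val (w : List (G × G)) : G := (w.map (fun p => p.1⁻¹ * p.2)).prod

theorem val_cons (p : G × G) (w : List (G × G)) : val (p :: w) = p.1⁻¹ * p.2 * val w := by
  simp [val]

theorem sum_words (T : Finset G) (n : ℕ) (o : Option G) (F : List (G × G) → ℝ) :
    ∑ w ∈ words T (n + 1) o, F w = ∑ t ∈ T, ∑ s ∈ T,
      if o ≠ some t ∧ t ≠ s then ∑ w ∈ words T n (some s), F ((t, s) :: w) else 0 := by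
  rw [words, Finset.sum_map, Finset.sum_sigma, Finset.sum_filter, Finset.sum_product]
  rfl

/-- words are reduced -/
theorem words_prop (T : Finset G) (n : ℕ) : ∀ (o : Option G) (w : List (G × G)),
    w ∈ words T n o → w.length = n ∧ (∀ p ∈ w, p.1 ∈ T ∧ p.2 ∈ T ∧ p.1 ≠ p.2) ∧
      w.IsChain (fun p q => p.2 ≠ q.1) ∧ ∀ p ∈ w.head?, o ≠ some p.1 := by
  induction n with
  | zero =>
    intro o w hw
    rw [words, Finset.mem_singleton] at hw
    subst hw
    simp
  | succ n ih =>
    intro o w hw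
    rw [words, Finset.mem_map] at hw
    obtain ⟨⟨p, v⟩, hpv, rfl⟩ := hw
    rw [Finset.mem_sigma, Finset.mem_filter, Finset.mem_product] at hpv
    obtain ⟨⟨⟨h1, h2⟩, h3, h4⟩, h5⟩ := hpv
    obtain ⟨i1, i2, i3, i4⟩ := ih _ _ h5
    change (p :: v).length = n + 1 ∧ (∀ q ∈ p :: v, q.1 ∈ T ∧ q.2 ∈ T ∧ q.1 ≠ q.2) ∧
      (p :: v).IsChain (fun p q => p.2 ≠ q.1) ∧ ∀ q ∈ (p :: v).head?, o ≠ some q.1
    refine ⟨by simpa using i1, ?_, ?_, ?_⟩
    · intro q hq
      rcases List.mem_cons.1 hq with rfl | hq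
      · exact ⟨h1, h2, h4⟩
      · exact i2 q hq
    · refine List.isChain_cons.2 ⟨fun q hq => ?_, i3⟩
      intro h6
      exact i4 q hq (congrArg some h6)
    · intro q hq
      have : q = p := by simpa using hq.symm
      rw [this]
      exact h3

/-- the total weight which is left after a letter -/
noncomputable def cw (h : G → ℝ) : Option G → ℝ
  | none => 1
  | some s => 1 - h s

theorem level (α : G →₀ ℂ) (h : G → ℝ) (hg : Good α.support α h)
    {u : lp (fun _ : G => ℂ) 2} (hu : u ∈ kern α) (n : ℕ) :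
    ∀ (o : Option G), (∀ s, o = some s → s ∈ α.support) → ∀ x : G,
      cw h o * ‖u x‖ ^ 2 ≤ ∑ w ∈ words α.support n o, ‖u ((val w)⁻¹ * x)‖ ^ 2 := by
  have hcw : ∀ o : Option G, (∀ s, o = some s → s ∈ α.support) → cw h o ≤ 1 := by
    rintro (_ | s) ho
    · exact le_refl _
    · have := hg.1 s (ho s rfl)
      unfold cw
      linarith
  induction n with
  | zero =>
    intro o ho x
    rw [words, Finset.sum_singleton]
    have h1 : (val ([] : List (G × G)))⁻¹ * x = x := by simp [val]
    rw [h1]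
    exact mul_le_of_le_one_left (by positivity) (hcw o ho)
  | succ n ih =>
    intro o ho x
    rw [sum_words]
    have hsum : cw h o = ∑ t ∈ α.support, if o ≠ some t then h t else 0 := by
      rcases o with _ | s
      · have : ∀ t ∈ α.support, (if (none : Option G) ≠ some t then h t else 0) = h t := by
          intro t _
          simp
        rw [Finset.sum_congr rfl this, hg.2.2.1]
        rfl
      · have hs := ho s rfl
        have h2 := Finset.add_sum_erase α.support (fun t => if some s ≠ some t then h t else 0) hs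
        have h3 := Finset.add_sum_erase α.support h hs
        rw [← h2]
        simp only [ne_eq, not_true_eq_false, if_false, zero_add, Option.some.injEq]
        have h4 : ∀ t ∈ α.support.erase s, (if ¬ s = t then h t else 0) = h t := by
          intro t ht
          rw [if_pos (Finset.mem_erase.1 ht).1.symm]
        rw [Finset.sum_congr rfl h4]
        rw [hg.2.2.1] at h3
        unfold cw
        linarith
    rw [hsum, Finset.sum_mul]
    refine Finset.sum_le_sum fun t ht => ?_
    by_cases hot : o ≠ some t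
    · rw [if_pos hot]
      refine (good_kern α h hg hu x t ht).trans ?_
      rw [← Finset.add_sum_erase α.support (fun s => if o ≠ some t ∧ t ≠ s then
        ∑ w ∈ words α.support n (some s), ‖u ((val ((t, s) :: w))⁻¹ * x)‖ ^ 2 else 0) ht]
      simp only [ne_eq, not_true_eq_false, and_false, if_false, zero_add]
      refine Finset.sum_le_sum fun s hs => ?_
      have hs' := Finset.mem_erase.1 hs
      rw [if_pos ⟨hot, fun h => hs'.1 h.symm⟩]
      have h5 := ih (some s) (fun r hr => by
        rw [Option.some.injEq] at hr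
        rw [← hr]
        exact hs'.2) (s⁻¹ * t * x)
      refine h5.trans (le_of_eq (Finset.sum_congr rfl fun w _ => ?_))
      rw [val_cons]
      congr 3
      group
    · rw [if_neg hot]
      simp only [hot, false_and, if_false, Finset.sum_const_zero, zero_mul, le_refl]

/-- reduced words over `T` -/
def Red (T : Finset G) (w : List (G × G)) : Prop :=
  (∀ p ∈ w, p.1 ∈ T ∧ p.2 ∈ T ∧ p.1 ≠ p.2) ∧ w.IsChain (fun p q => p.2 ≠ q.1)

/-- **Kernel dimension and relations.** -/
theorem girth (α : G →₀ ℂ) (h0 : α ≠ 0) (L : ℕ)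
    (hL : ∀ v w : List (G × G), Red α.support v → Red α.support w → v.length ≤ L →
      w.length ≤ L → val v = val w → v = w) : kd α * (L + 1) ≤ 1 := by
  obtain ⟨h, hg⟩ := exists_good α.support α (Finsupp.support_nonempty_iff.2 h0)
    (fun t ht => Finsupp.mem_support_iff.1 ht)
  obtain ⟨u, hu, h1, h2⟩ := exists_proj α
  have hlev : ∀ n : ℕ, kd α ^ 2 ≤ ∑ w ∈ words α.support n none, ‖u (val w)⁻¹‖ ^ 2 := by
    intro n
    have h3 := level α h hg hu n none (fun s hs => by simp at hs) 1
    rw [h1] at h3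
    simp only [mul_one] at h3
    have h4 : cw h none * ‖((kd α : ℝ) : ℂ)‖ ^ 2 = kd α ^ 2 := by
      rw [Complex.norm_real, Real.norm_eq_abs, sq_abs]
      unfold cw
      ring
    rw [h4] at h3
    exact h3
  set W : Finset (List (G × G)) :=
    (Finset.range (L + 1)).biUnion (fun n => words α.support n none) with hW
  have hdisj : ((Finset.range (L + 1) : Finset ℕ) : Set ℕ).PairwiseDisjoint
      (fun n => words α.support n none) := by
    intro a _ b _ hab
    refine Finset.disjoint_left.2 fun w hwa hwb => hab ?_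
    rw [← (words_prop _ _ _ _ hwa).1, ← (words_prop _ _ _ _ hwb).1]
  have h5 : ((L : ℝ) + 1) * kd α ^ 2 ≤ ∑ w ∈ W, ‖u (val w)⁻¹‖ ^ 2 := by
    rw [hW, Finset.sum_biUnion hdisj]
    have h6 := Finset.sum_le_sum (s := Finset.range (L + 1)) (fun n _ => hlev n)
    rw [Finset.sum_const, Finset.card_range, nsmul_eq_mul] at h6
    push_cast at h6
    exact h6
  have hinj : Set.InjOn (fun w : List (G × G) => (val w)⁻¹) (W : Set (List (G × G))) := by
    intro v hv w hw hvw
    rw [hW, Finset.coe_biUnion] at hv hw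
    simp only [Set.mem_iUnion] at hv hw
    obtain ⟨a, ha, hv⟩ := hv
    obtain ⟨b, hb, hw⟩ := hw
    have pv := words_prop _ _ _ _ (Finset.mem_coe.1 hv)
    have pw := words_prop _ _ _ _ (Finset.mem_coe.1 hw)
    have ha' := Finset.mem_range.1 (Finset.mem_coe.1 ha)
    have hb' := Finset.mem_range.1 (Finset.mem_coe.1 hb)
    exact hL v w ⟨pv.2.1, pv.2.2.1⟩ ⟨pw.2.1, pw.2.2.1⟩ (by omega) (by omega)
      (inv_injective hvw)
  have h7 : ∑ w ∈ W, ‖u (val w)⁻¹‖ ^ 2 ≤ ‖u‖ ^ 2 := by
    have h8 := Finset.sum_image (f := fun g : G => ‖u g‖ ^ 2) hinj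
    rw [← h8]
    exact sum_le_hasSum _ (fun _ _ => by positivity) (norm_sq_eq u)
  rw [h2] at h7
  have h9 := h5.trans h7
  rcases (kd_nonneg α).eq_or_lt with h10 | h10
  · rw [← h10, zero_mul]
    norm_num
  · have : kd α * (kd α * (L + 1)) ≤ kd α * 1 := by nlinarith
    exact le_of_mul_le_mul_left this h10

theorem val_append (v w : List (G × G)) : val (v ++ w) = val v * val w := by
  simp [val]

/-- the inverse word -/
def inw (v : List (G × G)) : List (G × G) := (v.map Prod.swap).reverse

theorem val_inw (v : List (G × G)) : val (inw v) = (val v)⁻¹ := by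
  induction v with
  | nil => simp [inw, val]
  | cons p v ih =>
    have h1 : inw (p :: v) = inw v ++ [p.swap] := by simp [inw]
    rw [h1, val_append, ih, val_cons]
    simp [val]

theorem red_join (T : Finset G) (v w : List (G × G)) (hv : Red T v) (hw : Red T w)
    (h : ∀ p ∈ v.head?, ∀ q ∈ w.head?, p.1 ≠ q.1) : Red T (inw v ++ w) := by
  constructor
  · intro p hp
    rcases List.mem_append.1 hp with hp | hp
    · unfold inw at hp
      rw [List.mem_reverse, List.mem_map] at hp
      obtain ⟨q, hq, rfl⟩ := hp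
      have := hv.1 q hq
      exact ⟨this.2.1, this.1, this.2.2.symm⟩
    · exact hw.1 p hp
  · rw [List.isChain_append]
    refine ⟨?_, hw.2, ?_⟩
    · unfold inw
      rw [List.isChain_reverse, List.isChain_map]
      exact hv.2.imp fun p q hpq => hpq.symm
    · intro x hx y hy
      unfold inw at hx
      rw [List.getLast?_reverse, List.head?_map, Option.mem_map] at hx
      obtain ⟨q, hq, rfl⟩ := hx
      exact h q hq y hy

theorem red_tail {T : Finset G} {p : G × G} {v : List (G × G)} (h : Red T (p :: v)) :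
    Red T v ∧ ∀ q ∈ v.head?, p.2 ≠ q.1 := by
  refine ⟨⟨fun q hq => h.1 q (List.mem_cons_of_mem _ hq), (List.isChain_cons.1 h.2).2⟩,
    (List.isChain_cons.1 h.2).1⟩

/-- two distinct reduced words with the same value give a relation -/
theorem relation (T : Finset G) : ∀ v w : List (G × G), Red T v → Red T w → v ≠ w →
    val v = val w → ∃ z : List (G × G), z ≠ [] ∧ Red T z ∧ z.length ≤ v.length + w.length ∧
      val z = 1 := by
  intro v
  induction v with
  | nil =>
    intro w _ hw hne h
    exact ⟨w, fun h0 => hne h0.symm, hw, by simp, by rw [← h]; simp [val]⟩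
  | cons p v ih =>
    intro w hv hw hne h
    cases w with
    | nil => exact ⟨p :: v, hne, hv, by simp, by rw [h]; simp [val]⟩
    | cons q w =>
      by_cases h1 : p.1 = q.1
      · by_cases h2 : p.2 = q.2
        · have hpq : p = q := Prod.ext h1 h2
          subst hpq
          obtain ⟨z, hz1, hz2, hz3, hz4⟩ := ih w (red_tail hv).1 (red_tail hw).1
            (fun h3 => hne (by rw [h3])) (by
              rw [val_cons, val_cons] at h
              exact mul_left_cancel h)
          exact ⟨z, hz1, hz2, hz3.trans (by simp only [List.length_cons]; omega), hz4⟩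
        · refine ⟨inw v ++ (p.2, q.2) :: w, by simp, ?_, ?_, ?_⟩
          · refine red_join T v _ (red_tail hv).1 ⟨?_, ?_⟩ ?_
            · intro r hr
              rcases List.mem_cons.1 hr with rfl | hr
              · exact ⟨(hv.1 p (by simp)).2.1, (hw.1 q (by simp)).2.1, h2⟩
              · exact hw.1 r (List.mem_cons_of_mem _ hr)
            · exact List.isChain_cons.2 ⟨(red_tail hw).2, (red_tail hw).1.2⟩
            · intro r hr s hs
              have : s = (p.2, q.2) := by simpa using hs.symm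
              rw [this]
              exact ((red_tail hv).2 r hr).symm
          · simp only [List.length_append, inw, List.length_reverse, List.length_map,
              List.length_cons]
            omega
          · rw [val_append, val_inw, val_cons]
            rw [val_cons, val_cons, h1] at h
            have h3 : p.2 * val v = q.2 * val w := by
              rw [mul_assoc, mul_assoc] at h
              exact mul_left_cancel h
            rw [mul_assoc p.2⁻¹, ← h3]
            group
      · refine ⟨inw (p :: v) ++ q :: w, by simp, red_join T _ _ hv hw ?_, ?_, ?_⟩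
        · intro r hr s hs
          have e1 : r = p := by simpa using hr.symm
          have e2 : s = q := by simpa using hs.symm
          rw [e1, e2]
          exact h1
        · simp only [List.length_append, inw, List.length_reverse, List.length_map,
            List.length_cons]
          omega
        · rw [val_append, val_inw, h, inv_mul_cancel]

/-- **Short relations.** -/
theorem short (α : G →₀ ℂ) (h0 : α ≠ 0) (hd : 0 < kd α) :
    ∃ z : List (G × G), z ≠ [] ∧ Red α.support z ∧ (z.length : ℝ) * kd α ≤ 2 ∧ val z = 1 := by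
  set L : ℕ := ⌊1 / kd α⌋₊ with hLdef
  have h1 : 1 / kd α < L + 1 := Nat.lt_floor_add_one _
  have h2 : (L : ℝ) ≤ 1 / kd α := Nat.floor_le (by positivity)
  by_contra hcon
  push Not at hcon
  have h3 := girth α h0 L (by
    intro v w hv hw hvl hwl hval
    by_contra hne
    obtain ⟨z, hz1, hz2, hz3, hz4⟩ := relation α.support v w hv hw hne hval
    refine hcon z hz1 hz2 ?_ hz4
    have h4 : (z.length : ℝ) ≤ 2 * L := by
      have : z.length ≤ 2 * L := by omega
      exact_mod_cast this
    calc (z.length : ℝ) * kd α ≤ 2 * L * kd α := mul_le_mul_of_nonneg_right h4 hd.le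
      _ ≤ 2 * (1 / kd α) * kd α := by
        apply mul_le_mul_of_nonneg_right _ hd.le
        linarith
      _ = 2 := by
        rw [mul_assoc, one_div, inv_mul_cancel₀ hd.ne', mul_one])
  rw [div_lt_iff₀ hd] at h1
  nlinarith

end Pool.Agent.R625.AZ
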