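import Pool.Agent.W656.VA6

/-!
Rows over a group algebra: the kernel dimension of `k` generic translates of an element.
-/

set_option autoImplicit false
set_option linter.unusedSectionVars false

open scoped InnerProductSpace ENNReal

namespace Pool.Agent.R625.AZ

open Pool.Agent.W656.VA
open Pool.Agent.H80R2
open Pool.Agent.H80R2.BC (L2 GMat vdim IsTr LInv Equi act kerA pt vals Generic TorDiv)
open Pool.Agent.H812R3

variable {κ ι η G G' : Type} [Group G] [Group G'] [Fintype κ] [Fintype ι] [Fintype η]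

/-- a single element as a matrix -/
def M1 (x : G →₀ ℂ) : GMat Unit Unit G := fun _ _ => x

theorem cut_dim (inc : G →* G') (hinc : Function.Injective inc) (u : ι → η → G')
    (hu : Generic inc u) (A : GMat κ (ι × Unit) G)
    (hj : (Fintype.card η : ℝ) < vdim (kerA A)) :
    vdim (kerA (BC.Cut inc u A)) = vdim (kerA A) - Fintype.card η := by
  have h1 := cut_eq inc hinc u hu A
  have h2 := cut_ge inc hinc u A ⊤
  set Z := kerA (BC.Cut inc u A) with hZdef
  set Φ := vals Z with hΦ
  have ftop : fd A ⊤ = vdim (kerA A) := by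
    unfold fd
    congr 1
    exact inf_eq_left.2 (fun x _ p g => trivial)
  have h3 : vdim (Z ⊓ pt ⊤) ≤ vdim Z := vdim_mono inf_le_left
  rw [ftop, finrank_top, Module.finrank_fintype_fun_eq_card] at h2
  simp only [Fintype.card_unit, Nat.cast_one, mul_one] at h2 h1
  have h4 : Module.finrank ℂ Φ ≤ 1 := by
    have := Submodule.finrank_le Φ
    rwa [Module.finrank_fintype_fun_eq_card, Fintype.card_unit] at this
  have h5 : fd A Φ ≤ vdim (kerA A) := vdim_mono inf_le_left
  rcases Nat.le_one_iff_eq_zero_or_eq_one.1 h4 with h6 | h6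
  · exfalso
    have h7 : Φ = ⊥ := Submodule.finrank_eq_zero.1 h6
    have h8 : fd A Φ = 0 := by
      unfold fd
      rw [h7]
      have : kerA A ⊓ pt ⊥ = ⊥ := by
        rw [eq_bot_iff]
        rintro x ⟨_, hx⟩
        rw [Submodule.mem_bot]
        ext ⟨⟨p, i⟩, g⟩
        exact congrFun ((Submodule.mem_bot ℂ).1 (hx p g)) i
      rw [this, vdim_bot]
    rw [h8, h6] at h1
    simp only [Nat.cast_zero, mul_zero, sub_zero] at h1
    linarith
  · rw [h6] at h1
    simp only [Nat.cast_one, mul_one] at h1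
    linarith

/-- `f ↦ (f, - f(· w))` -/
noncomputable def Cf (w : G) : GMat ((Unit ⊕ Unit) × Unit) Unit G :=
  fun p _ => Sum.elim (fun _ => Finsupp.single 1 1) (fun _ => Finsupp.single w (-1)) p.1

/-- the first component -/
noncomputable def Df : GMat Unit ((Unit ⊕ Unit) × Unit) G :=
  fun _ p => Sum.elim (fun _ => Finsupp.single 1 1) (fun _ => 0) p.1

theorem Cf_inl (w : G) (f : L2 (Unit × G)) (g : G) :
    op (Cf w) f ((Sum.inl (), ()), g) = f ((), g) := by
  rw [op_apply]
  simp [act, Cf]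

theorem Cf_inr (w : G) (f : L2 (Unit × G)) (g : G) :
    op (Cf w) f ((Sum.inr (), ()), g) = - f ((), g * w) := by
  rw [op_apply]
  unfold act Cf
  simp only [Finset.univ_unique, PUnit.default_eq_unit, Finset.sum_singleton, Sum.elim_inr]
  rw [Finsupp.sum_single_index (by simp)]
  ring

theorem Df_apply (x : L2 (((Unit ⊕ Unit) × Unit) × G)) (g : G) :
    op Df x ((), g) = x ((Sum.inl (), ()), g) := by
  rw [op_apply]
  simp [act, Df, Fintype.sum_prod_type, Fintype.sum_sum_type]

/-- the two blocks -/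
noncomputable def blk (A : GMat κ Unit G) (x : G →₀ ℂ) : GMat (κ ⊕ Unit) ((Unit ⊕ Unit) × Unit) G :=
  ri (Equiv.refl _) (Equiv.prodPUnit (Unit ⊕ Unit)) (bd A (M1 x))

/-- rows together with a translate of an element -/
noncomputable def rows (inc : G → G') (w : G') (A : GMat κ Unit G) (x : G →₀ ℂ) :
    GMat (κ ⊕ Unit) Unit G' :=
  Sum.elim (fun k i => (A k i).mapDomain inc) (fun _ _ => x.mapDomain (fun h => inc h * w))

theorem vdim_blk (A : GMat κ Unit G) (x : G →₀ ℂ) :
    vdim (kerA (blk A x)) = vdim (kerA A) + vdim (kerA (M1 x)) := by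
  unfold blk
  rw [vdim_ri, vdim_bd]

/-- the sum of a mapped function -/
theorem sum_map {X : Type} (φ : X → G') (a : X →₀ ℂ) (F : G' → ℂ) :
    (a.mapDomain φ).sum (fun h c => c * F h) = a.sum (fun h c => c * F (φ h)) :=
  Finsupp.sum_mapDomain_index (fun _ => zero_mul _) (fun _ _ _ => add_mul _ _ _)

theorem mem_push_blk (inc : G → G') (A : GMat κ Unit G) (x : G →₀ ℂ)
    (z : L2 (((Unit ⊕ Unit) × Unit) × G')) :
    z ∈ kerA (BC.push inc (blk A x)) ↔
      (∀ k g, (A k ()).sum (fun h c => c * z ((Sum.inl (), ()), g * inc h)) = 0) ∧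
      (∀ g, x.sum (fun h c => c * z ((Sum.inr (), ()), g * inc h)) = 0) := by
  rw [mem_kerA]
  have h1 : ∀ k g, act (BC.push inc (blk A x)) z (Sum.inl k) g =
      (A k ()).sum (fun h c => c * z ((Sum.inl (), ()), g * inc h)) := by
    intro k g
    unfold act BC.push
    rw [Fintype.sum_prod_type, Fintype.sum_sum_type]
    simp only [Finset.univ_unique, PUnit.default_eq_unit, Finset.sum_singleton]
    have e1 : blk A x (Sum.inl k) (Sum.inl (), ()) = A k () := rfl
    have e2 : blk A x (Sum.inl k) (Sum.inr (), ()) = 0 := rfl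
    rw [e1, e2, Finsupp.mapDomain_zero, Finsupp.sum_zero_index, add_zero,
      sum_map inc (A k ()) (fun h => z ((Sum.inl (), ()), g * h))]
  have h2 : ∀ g, act (BC.push inc (blk A x)) z (Sum.inr ()) g =
      x.sum (fun h c => c * z ((Sum.inr (), ()), g * inc h)) := by
    intro g
    unfold act BC.push
    rw [Fintype.sum_prod_type, Fintype.sum_sum_type]
    simp only [Finset.univ_unique, PUnit.default_eq_unit, Finset.sum_singleton]
    have e1 : blk A x (Sum.inr ()) (Sum.inl (), ()) = 0 := rfl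
    have e2 : blk A x (Sum.inr ()) (Sum.inr (), ()) = x := rfl
    rw [e1, e2, Finsupp.mapDomain_zero, Finsupp.sum_zero_index, zero_add,
      sum_map inc x (fun h => z ((Sum.inr (), ()), g * h))]
  constructor
  · intro h
    exact ⟨fun k g => by rw [← h1]; exact h _ _, fun g => by rw [← h2]; exact h _ _⟩
  · rintro ⟨h3, h4⟩ (k | k) g
    · rw [h1]; exact h3 k g
    · rw [h2]; exact h4 g

theorem mem_rows (inc : G → G') (w : G') (A : GMat κ Unit G) (x : G →₀ ℂ)
    (f : L2 (Unit × G')) :
    f ∈ kerA (rows inc w A x) ↔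
      (∀ k g, (A k ()).sum (fun h c => c * f ((), g * inc h)) = 0) ∧
      (∀ g, x.sum (fun h c => c * f ((), g * (inc h * w))) = 0) := by
  rw [mem_kerA]
  have h1 : ∀ k g, act (rows inc w A x) f (Sum.inl k) g =
      (A k ()).sum (fun h c => c * f ((), g * inc h)) := by
    intro k g
    unfold act rows
    simp only [Finset.univ_unique, PUnit.default_eq_unit, Finset.sum_singleton, Sum.elim_inl]
    rw [sum_map inc (A k ()) (fun h => f ((), g * h))]
  have h2 : ∀ g, act (rows inc w A x) f (Sum.inr ()) g =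
      x.sum (fun h c => c * f ((), g * (inc h * w))) := by
    intro g
    unfold act rows
    simp only [Finset.univ_unique, PUnit.default_eq_unit, Finset.sum_singleton, Sum.elim_inr]
    rw [sum_map (fun h => inc h * w) x (fun h => f ((), g * h))]
  constructor
  · intro h
    exact ⟨fun k g => by rw [← h1]; exact h _ _, fun g => by rw [← h2]; exact h _ _⟩
  · rintro ⟨h3, h4⟩ (k | k) g
    · rw [h1]; exact h3 k g
    · rw [h2]; exact h4 g

/-- the solutions of the cut system and the rows -/
theorem vdim_rows (inc : G →* G') (hinc : Function.Injective inc) (u : Unit ⊕ Unit → Unit → G')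
    (hu : Generic inc u) (A : GMat κ Unit G) (x : G →₀ ℂ)
    (hj : 1 < vdim (kerA A) + vdim (kerA (M1 x))) :
    vdim (kerA (rows inc ((u (Sum.inr ()) ())⁻¹ * u (Sum.inl ()) ()) A x)) =
      vdim (kerA A) + vdim (kerA (M1 x)) - 1 := by
  set w := (u (Sum.inr ()) ())⁻¹ * u (Sum.inl ()) () with hw
  have h1 := cut_dim inc hinc u hu (blk A x) (by
    rw [vdim_blk]
    simpa using hj)
  rw [vdim_blk, Fintype.card_unit, Nat.cast_one] at h1
  rw [← h1]
  have hrel : ∀ z : L2 (((Unit ⊕ Unit) × Unit) × G'), z ∈ kerA (BC.Cut inc u (blk A x)) ↔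
      z ∈ kerA (BC.push inc (blk A x)) ∧
        ∀ r, z ((Sum.inr (), ()), r) = - z ((Sum.inl (), ()), r * w) := by
    intro z
    rw [mem_cut_iff]
    refine and_congr_right fun _ => ?_
    constructor
    · intro h r
      have h2 := h () () (r * (u (Sum.inr ()) ())⁻¹)
      rw [Fintype.sum_sum_type] at h2
      simp only [Finset.univ_unique, PUnit.default_eq_unit, Finset.sum_singleton,
        inv_mul_cancel_right] at h2
      rw [hw, ← mul_assoc]
      exact eq_neg_of_add_eq_zero_right h2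
    · rintro h ⟨⟩ ⟨⟩ r
      rw [Fintype.sum_sum_type]
      simp only [Finset.univ_unique, PUnit.default_eq_unit, Finset.sum_singleton]
      rw [h, hw, ← mul_assoc, mul_inv_cancel_right]
      ring
  apply le_antisymm
  · refine vdim_inj_le (isClosed_kerA _) (linv_kerA _) (op (Cf w)) (equi_op _)
      (isClosed_kerA _) ?_ ?_
    · intro f hf
      rw [mem_rows] at hf
      rw [hrel, mem_push_blk]
      refine ⟨⟨fun k g => ?_, fun g => ?_⟩, fun r => ?_⟩
      · simp only [Cf_inl]
        exact hf.1 k g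
      · simp only [Cf_inr]
        have h2 := hf.2 g
        rw [← neg_eq_zero, Finsupp.sum, ← Finset.sum_neg_distrib] at h2
        rw [Finsupp.sum, ← h2]
        refine Finset.sum_congr rfl fun h _ => ?_
        rw [mul_assoc g, mul_neg]
      · rw [Cf_inr, Cf_inl]
    · intro f _ h0
      ext ⟨⟨⟩, g⟩
      rw [← Cf_inl w f g, h0]
      rfl
  · refine vdim_inj_le (isClosed_kerA _) (linv_kerA _) (op Df) (equi_op _)
      (isClosed_kerA _) ?_ ?_
    · intro z hz
      rw [hrel, mem_push_blk] at hz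
      rw [mem_rows]
      refine ⟨fun k g => ?_, fun g => ?_⟩
      · simp only [Df_apply]
        exact hz.1.1 k g
      · simp only [Df_apply]
        have h2 := hz.1.2 g
        rw [← neg_eq_zero, Finsupp.sum, ← Finset.sum_neg_distrib] at h2
        rw [Finsupp.sum, ← h2]
        refine Finset.sum_congr rfl fun h _ => ?_
        rw [hz.2, mul_assoc g, mul_neg, neg_neg]
    · intro z hz h0
      rw [hrel] at hz
      have h3 : ∀ g, z ((Sum.inl (), ()), g) = 0 := by
        intro g
        rw [← Df_apply, h0]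
        rfl
      ext ⟨⟨⟨⟩ | ⟨⟩, ⟨⟩⟩, g⟩
      · exact h3 g
      · rw [hz.2, h3, neg_zero]
        rfl

/-- **One more generic translate.** -/
theorem step (A : GMat κ Unit G) (x : G →₀ ℂ) (hj : 1 < vdim (kerA A) + vdim (kerA (M1 x))) :
    (∃ B : GMat (κ ⊕ Unit) Unit (Monoid.Coprod G (FreeGroup (Fin 2))),
      vdim (kerA B) = vdim (kerA A) + vdim (kerA (M1 x)) - 1) ∧
    ∃ y : Monoid.Coprod G (FreeGroup (Fin 2)) →₀ ℂ, vdim (kerA (M1 y)) = vdim (kerA (M1 x)) := by
  have e : (Unit ⊕ Unit) × Unit ≃ Fin 2 := Fintype.equivFinOfCardEq (by simp)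
  have hgen := BC.generic_coprod G 2 e
  have hinj : Function.Injective
    (Monoid.Coprod.inl : G →* Monoid.Coprod G (FreeGroup (Fin 2))) := Monoid.Coprod.inl_injective
  refine ⟨⟨_, vdim_rows _ hinj _ hgen A x hj⟩, ⟨x.mapDomain Monoid.Coprod.inl, ?_⟩⟩
  have h := vdim_push (Monoid.Coprod.inl : G →* Monoid.Coprod G (FreeGroup (Fin 2))) hinj (M1 x)
  exact h

/-- **Many generic translates.** -/
theorem many (C : (G : Type) → [Group G] → Prop)
    (hfree : ∀ (G : Type) [Group G] (m : ℕ), C G → C (Monoid.Coprod G (FreeGroup (Fin m))))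
    (G : Type) [Group G] (hG : C G) (x : G →₀ ℂ) (ρ : ℝ) (hρ : vdim (kerA (M1 x)) = 1 - ρ)
    (k : ℕ) (hk1 : 1 ≤ k) (hk : k * ρ < 1) :
    ∃ (Γ : Type) (_ : Group Γ) (κ : Type) (_ : Fintype κ) (A : GMat κ Unit Γ) (y : Γ →₀ ℂ),
      C Γ ∧ vdim (kerA A) = 1 - k * ρ ∧ vdim (kerA (M1 y)) = 1 - ρ := by
  induction k with
  | zero => exact absurd hk1 (by norm_num)
  | succ k ih =>
    rcases Nat.eq_zero_or_pos k with h0 | h0
    · subst h0
      refine ⟨G, inferInstance, Unit, inferInstance, M1 x, x, hG, ?_, hρ⟩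
      rw [hρ]
      simp
    · have hρ0 : 0 ≤ ρ := by
        have := vdim_le_card (kerA (M1 x))
        rw [hρ] at this
        simp at this
        linarith
      push_cast at hk
      have hk' : (k : ℝ) * ρ < 1 := by nlinarith
      obtain ⟨Γ, _, κ, _, A, y, hC, hA, hy⟩ := ih h0 hk'
      obtain ⟨⟨B, hB⟩, ⟨z, hz⟩⟩ := step A y (by rw [hA, hy]; linarith)
      refine ⟨Monoid.Coprod Γ (FreeGroup (Fin 2)), inferInstance, κ ⊕ Unit, inferInstance, B, z,
        hfree Γ 2 hC, ?_, ?_⟩
      · rw [hB, hA, hy]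
        push_cast
        ring
      · rw [hz, hy]

end Pool.Agent.R625.AZ
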