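import Pool.Agent.R625.AZ.Base

/-!
Elements of a group ring whose support consists of the identity and of free generators of a
semigroup.
-/

set_option autoImplicit false

open scoped InnerProductSpace ENNReal

namespace Pool.Agent.R625.AZ

open Pool.Agent.TH57.AZ

universe u v

variable {G : Type u} [Group G] {ι : Type v} [Fintype ι]

/-- `c + ∑ a(i) s(i)` -/
noncomputable def el (s : ι → G) (c : ℂ) (a : ι → ℂ) : G →₀ ℂ :=
  Finsupp.single 1 c + ∑ i, Finsupp.single (s i) (a i)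

/-- the product of a word -/
def wp (s : ι → G) {n : ℕ} (w : Fin n → ι) : G := (List.ofFn fun i => s (w i)).prod

omit [Fintype ι] in
theorem wp_zero (s : ι → G) (w : Fin 0 → ι) : wp s w = 1 := by
  simp [wp]

omit [Fintype ι] in
theorem wp_cons (s : ι → G) {n : ℕ} (i : ι) (w : Fin n → ι) :
    wp s (Fin.cons i w : Fin (n + 1) → ι) = s i * wp s w := by
  simp [wp, List.ofFn_succ]

theorem rel (s : ι → G) (c : ℂ) (a : ι → ℂ) {u : lp (fun _ : G => ℂ) 2}
    (hu : u ∈ kern (el s c a)) (g : G) : c * u g + ∑ i, a i * u ((s i)⁻¹ * g) = 0 := by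
  classical
  have h := (kern_iff _ u).1 hu g
  unfold el at h
  rw [Finsupp.sum_add_index' (fun _ => by simp) (fun _ _ _ => by ring),
    Finsupp.sum_single_index (by simp),
    ← Finsupp.sum_finsetSum_index (fun _ => by simp) (fun _ _ _ => by ring)] at h
  simp only [inv_one, one_mul] at h
  rw [← h]
  congr 1
  refine Finset.sum_congr rfl fun i _ => ?_
  rw [Finsupp.sum_single_index (by simp)]

theorem iter (s : ι → G) (c : ℂ) (a : ι → ℂ) {u : lp (fun _ : G => ℂ) 2}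
    (hu : u ∈ kern (el s c a)) (n : ℕ) : ∀ g : G,
    c ^ n * u g = ∑ w : Fin n → ι, (∏ i, (-a (w i))) * u ((wp s w)⁻¹ * g) := by
  induction n with
  | zero =>
    intro g
    simp [wp]
  | succ n ih =>
    intro g
    have h1 : c * u g = ∑ i, (-a i) * u ((s i)⁻¹ * g) := by
      have := rel s c a hu g
      rw [eq_neg_of_add_eq_zero_left this, ← Finset.sum_neg_distrib]
      exact Finset.sum_congr rfl fun i _ => by ring
    rw [← (Fin.consEquiv (fun _ : Fin (n + 1) => ι)).sum_comp, Fintype.sum_prod_type]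
    rw [pow_succ, mul_assoc, h1, Finset.mul_sum]
    refine Finset.sum_congr rfl fun i _ => ?_
    rw [show c ^ n * (-a i * u ((s i)⁻¹ * g)) = -a i * (c ^ n * u ((s i)⁻¹ * g)) by ring, ih,
      Finset.mul_sum]
    refine Finset.sum_congr rfl fun w _ => ?_
    simp only [Fin.consEquiv_apply, Fin.prod_univ_succ, Fin.cons_zero, Fin.cons_succ]
    have hw : wp s ((Fin.consEquiv (fun _ : Fin (n + 1) => ι)) (i, w)) = s i * wp s w :=
      wp_cons s i w
    rw [hw, mul_inv_rev, mul_assoc (wp s w)⁻¹, mul_assoc (-a i)]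

/-- the energy on the inverses of the words of length `n` -/
theorem energy_word (s : ι → G) (c : ℂ) (a : ι → ℂ) {u : lp (fun _ : G => ℂ) 2}
    (hu : u ∈ kern (el s c a)) (n : ℕ) :
    (‖c‖ ^ 2) ^ n * ‖u 1‖ ^ 2 ≤ (∑ i, ‖a i‖ ^ 2) ^ n * ∑ w : Fin n → ι, ‖u (wp s w)⁻¹‖ ^ 2 := by
  have h := iter s c a hu n 1
  simp only [mul_one] at h
  have h1 : ‖c ^ n * u 1‖ ≤ ∑ w : Fin n → ι, ‖∏ i, (-a (w i))‖ * ‖u (wp s w)⁻¹‖ := by
    rw [h]
    refine (norm_sum_le _ _).trans (le_of_eq ?_)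
    exact Finset.sum_congr rfl fun w _ => norm_mul _ _
  have h2 := pow_le_pow_left₀ (norm_nonneg _) h1 2
  have h3 := Finset.sum_mul_sq_le_sq_mul_sq (Finset.univ : Finset (Fin n → ι))
    (fun w => ‖∏ i, (-a (w i))‖) (fun w => ‖u (wp s w)⁻¹‖)
  have h4 : ∑ w : Fin n → ι, ‖∏ i, (-a (w i))‖ ^ 2 = (∑ i, ‖a i‖ ^ 2) ^ n := by
    rw [Fintype.sum_pow]
    refine Finset.sum_congr rfl fun w _ => ?_
    rw [norm_prod, ← Finset.prod_pow]
    exact Finset.prod_congr rfl fun i _ => by rw [norm_neg]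
  rw [h4] at h3
  calc (‖c‖ ^ 2) ^ n * ‖u 1‖ ^ 2 = ‖c ^ n * u 1‖ ^ 2 := by
        rw [norm_mul, norm_pow]; ring
    _ ≤ _ := h2.trans h3

/-- words of length at most `N` have distinct values, also up to inversion -/
def Free (s : ι → G) (N : ℕ) : Prop :=
  ∀ v w : List ι, v.length ≤ N → w.length ≤ N →
    ((v.map s).prod = (w.map s).prod → v = w) ∧ ((v.map s).prod * (w.map s).prod = 1 → w = [])

omit [Fintype ι] in
theorem wp_eq (s : ι → G) {n : ℕ} (w : Fin n → ι) : wp s w = ((List.ofFn w).map s).prod := by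
  simp [wp, List.map_ofFn, Function.comp_def]

omit [Fintype ι] in
/-- the inverses of the words and the nonempty words -/
theorem inj (s : ι → G) (N : ℕ) (h : Free s N) :
    Function.Injective (Sum.elim (fun p : (Σ n : Fin (N + 1), (Fin n → ι)) => (wp s p.2)⁻¹)
      (fun p : (Σ n : Fin N, (Fin (n + 1) → ι)) => wp s p.2)) := by
  have hlen : ∀ (p : Σ n : Fin (N + 1), (Fin n → ι)), (List.ofFn p.2).length ≤ N := by
    intro p
    rw [List.length_ofFn]
    omega
  have hlen' : ∀ (p : Σ n : Fin N, (Fin (n + 1) → ι)), (List.ofFn p.2).length ≤ N := by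
    intro p
    rw [List.length_ofFn]
    omega
  have hsig : ∀ p q : (Σ n : Fin (N + 1), (Fin n → ι)), List.ofFn p.2 = List.ofFn q.2 → p = q := by
    rintro ⟨n, p⟩ ⟨m, q⟩ hpq
    have h1 := List.ofFn_inj'.1 hpq
    have h2 : (n : ℕ) = m := congrArg Sigma.fst h1
    have h3 : n = m := Fin.ext h2
    subst h3
    have h4 : p = q := by
      simpa using h1
    rw [h4]
  have hsig' : ∀ p q : (Σ n : Fin N, (Fin (n + 1) → ι)), List.ofFn p.2 = List.ofFn q.2 →
      p = q := by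
    rintro ⟨n, p⟩ ⟨m, q⟩ hpq
    have h1 := List.ofFn_inj'.1 hpq
    have h2 : (n : ℕ) + 1 = m + 1 := congrArg Sigma.fst h1
    have h3 : n = m := Fin.ext (by omega)
    subst h3
    have h4 : p = q := by
      simpa using h1
    rw [h4]
  have hcross : ∀ (p : Σ n : Fin (N + 1), (Fin n → ι)) (q : Σ n : Fin N, (Fin (n + 1) → ι)),
      (wp s p.2)⁻¹ ≠ wp s q.2 := by
    intro p q hpq
    rw [wp_eq, wp_eq] at hpq
    have h1 : ((List.ofFn p.2).map s).prod * ((List.ofFn q.2).map s).prod = 1 := by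
      rw [← hpq, mul_inv_cancel]
    have h2 := (h _ _ (hlen p) (hlen' q)).2 h1
    have h3 := congrArg List.length h2
    rw [List.length_ofFn] at h3
    simp at h3
  rintro (p | p) (q | q) hpq
  · simp only [Sum.elim_inl, inv_inj] at hpq
    rw [wp_eq, wp_eq] at hpq
    rw [hsig p q ((h _ _ (hlen p) (hlen q)).1 hpq)]
  · exact absurd hpq (hcross p q)
  · exact absurd hpq.symm (hcross q p)
  · simp only [Sum.elim_inr] at hpq
    rw [wp_eq, wp_eq] at hpq
    rw [hsig' p q ((h _ _ (hlen' p) (hlen' q)).1 hpq)]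

/-- the bound for words of length at most `N` -/
theorem bound (s : ι → G) (c : ℂ) (a : ι → ℂ) (N : ℕ) (h : Free s N) :
    kd (el s c a) * (1 + 2 * ∑ n ∈ Finset.range N,
      (‖c‖ ^ 2 / ∑ i, ‖a i‖ ^ 2) ^ (n + 1)) ≤ 1 := by
  obtain ⟨u, hu, h1, h2, h3⟩ := exists_herm (el s c a)
  set d := kd (el s c a) with hd
  set R := ∑ i, ‖a i‖ ^ 2 with hR
  have hR0 : 0 ≤ R := Finset.sum_nonneg fun i _ => by positivity
  have hd0 : 0 ≤ d := kd_nonneg _
  have hu1 : ‖u 1‖ ^ 2 = d ^ 2 := by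
    rw [h1, Complex.norm_real, Real.norm_eq_abs, sq_abs]
  have hE : ∀ n : ℕ, (‖c‖ ^ 2 / R) ^ n * d ^ 2 ≤ ∑ w : Fin n → ι, ‖u (wp s w)⁻¹‖ ^ 2 := by
    intro n
    have h4 := energy_word s c a hu n
    rw [hu1] at h4
    rcases eq_or_lt_of_le hR0 with h0 | h0
    · cases n with
      | zero =>
        simp only [pow_zero, one_mul] at h4 ⊢
        exact h4
      | succ n =>
        rw [← h0, div_zero, zero_pow (Nat.succ_ne_zero n), zero_mul]
        exact Finset.sum_nonneg fun _ _ => by positivity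
    · rw [div_pow, div_mul_eq_mul_div, div_le_iff₀ (pow_pos h0 n), mul_comm (∑ w, _)]
      exact h4
  have h5 := energy_le u _ (inj s N h)
  rw [Fintype.sum_sum_type, h2] at h5
  simp only [Sum.elim_inl, Sum.elim_inr] at h5
  rw [Fintype.sum_sigma, Fintype.sum_sigma] at h5
  have h6 : ∑ n : Fin (N + 1), (‖c‖ ^ 2 / R) ^ (n : ℕ) * d ^ 2 ≤
      ∑ n : Fin (N + 1), ∑ w : Fin n → ι, ‖u (wp s w)⁻¹‖ ^ 2 :=
    Finset.sum_le_sum fun n _ => hE n
  have h7 : ∑ n : Fin N, (‖c‖ ^ 2 / R) ^ ((n : ℕ) + 1) * d ^ 2 ≤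
      ∑ n : Fin N, ∑ w : Fin (n + 1) → ι, ‖u (wp s w)‖ ^ 2 := by
    refine Finset.sum_le_sum fun n _ => ?_
    refine (hE (n + 1)).trans (le_of_eq ?_)
    exact Finset.sum_congr rfl fun w _ => by rw [h3]
  rw [Fin.sum_univ_succ, Fin.val_zero, pow_zero, one_mul] at h6
  simp only [Fin.val_succ] at h6
  have h8 : ∑ n : Fin N, (‖c‖ ^ 2 / R) ^ ((n : ℕ) + 1) * d ^ 2 =
      (∑ n ∈ Finset.range N, (‖c‖ ^ 2 / R) ^ (n + 1)) * d ^ 2 := by
    rw [← Finset.sum_mul, Finset.sum_range (fun n => (‖c‖ ^ 2 / R) ^ (n + 1))]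
  rw [h8] at h6 h7
  set S := ∑ n ∈ Finset.range N, (‖c‖ ^ 2 / R) ^ (n + 1) with hS
  have h9 : d * (d * (1 + 2 * S)) ≤ d * 1 := by
    nlinarith
  rcases eq_or_lt_of_le hd0 with h0 | h0
  · rw [← h0]; simp
  · exact le_of_mul_le_mul_left h9 h0

omit [Fintype ι] in
theorem free_of_inj (s : ι → G) (hs : Function.Injective (FreeMonoid.lift s)) (N : ℕ) :
    Free s N := by
  have h1 : ∀ v : List ι, (v.map s).prod = FreeMonoid.lift s (FreeMonoid.ofList v) := by
    intro v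
    rw [FreeMonoid.lift_ofList]
  intro v w _ _
  constructor
  · intro h
    rw [h1, h1] at h
    exact FreeMonoid.ofList.injective (hs h)
  · intro h
    rw [h1, h1, ← map_mul, ← map_one (FreeMonoid.lift s)] at h
    have h2 := hs h
    have h3 : (v ++ w : List ι) = [] := by
      have := congrArg FreeMonoid.toList h2
      simpa using this
    exact (List.append_eq_nil_iff.1 h3).2

/-- the case of equality or dominance -/
theorem kd_eq_zero (s : ι → G) (c : ℂ) (a : ι → ℂ) (hs : Function.Injective (FreeMonoid.lift s))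
    (hc : c ≠ 0) (h : ∑ i, ‖a i‖ ^ 2 ≤ ‖c‖ ^ 2) : kd (el s c a) = 0 := by
  set R := ∑ i, ‖a i‖ ^ 2 with hR
  have hR0 : 0 ≤ R := Finset.sum_nonneg fun i _ => by positivity
  have hd0 := kd_nonneg (el s c a)
  rcases eq_or_lt_of_le hR0 with h0 | h0
  · obtain ⟨u, hu, h1, h2, h3⟩ := exists_herm (el s c a)
    have h4 := energy_word s c a hu 1
    rw [← hR, ← h0, zero_pow one_ne_zero, zero_mul, pow_one] at h4
    have hc2 : 0 < ‖c‖ ^ 2 := by positivity
    have h5 : ‖u 1‖ ^ 2 ≤ 0 := by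
      by_contra hcon
      push Not at hcon
      have := mul_pos hc2 hcon
      linarith
    rw [h1, Complex.norm_real, Real.norm_eq_abs, sq_abs] at h5
    nlinarith
  · have ht : 1 ≤ ‖c‖ ^ 2 / R := (one_le_div h0).2 h
    by_contra hne
    have hpos : 0 < kd (el s c a) := lt_of_le_of_ne hd0 (Ne.symm hne)
    obtain ⟨N, hN⟩ := exists_nat_gt (1 / kd (el s c a))
    have hb := bound s c a N (free_of_inj s hs N)
    have h1 : (N : ℝ) ≤ ∑ n ∈ Finset.range N, (‖c‖ ^ 2 / R) ^ (n + 1) := by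
      calc (N : ℝ) = ∑ n ∈ Finset.range N, (1 : ℝ) := by simp
        _ ≤ _ := Finset.sum_le_sum fun n _ => one_le_pow₀ ht
    rw [div_lt_iff₀ hpos] at hN
    rw [← hR] at hb
    nlinarith

theorem kd_le (s : ι → G) (c : ℂ) (a : ι → ℂ) (hs : Function.Injective (FreeMonoid.lift s))
    (h : ‖c‖ ^ 2 < ∑ i, ‖a i‖ ^ 2) :
    kd (el s c a) ≤ (∑ i, ‖a i‖ ^ 2 - ‖c‖ ^ 2) / (∑ i, ‖a i‖ ^ 2 + ‖c‖ ^ 2) := by
  set R := ∑ i, ‖a i‖ ^ 2 with hR
  have hc0 : 0 ≤ ‖c‖ ^ 2 := by positivity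
  have hR0 : 0 < R := lt_of_le_of_lt hc0 h
  set t := ‖c‖ ^ 2 / R with ht
  have ht0 : 0 ≤ t := div_nonneg hc0 hR0.le
  have ht1 : t < 1 := (div_lt_one hR0).2 h
  have hlim : Filter.Tendsto (fun N : ℕ => kd (el s c a) * (1 + 2 * ∑ n ∈ Finset.range N,
      t ^ (n + 1))) Filter.atTop (nhds (kd (el s c a) * (1 + 2 * (t * (1 - t)⁻¹)))) := by
    have h1 : HasSum (fun n : ℕ => t ^ (n + 1)) (t * (1 - t)⁻¹) := by
      have := (hasSum_geometric_of_lt_one ht0 ht1).mul_left t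
      simpa only [pow_succ'] using this
    exact (h1.tendsto_sum_nat.const_mul 2).const_add 1 |>.const_mul _
  have hle := le_of_tendsto' hlim fun N => bound s c a N (free_of_inj s hs N)
  have h1t : 0 < 1 - t := by linarith
  have h2 : kd (el s c a) * (1 + t) ≤ 1 - t := by
    have h3 : kd (el s c a) * (1 + 2 * (t * (1 - t)⁻¹)) * (1 - t) ≤ 1 * (1 - t) :=
      mul_le_mul_of_nonneg_right hle h1t.le
    have h4 : kd (el s c a) * (1 + 2 * (t * (1 - t)⁻¹)) * (1 - t) = kd (el s c a) * (1 + t) := by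
      field_simp
      ring
    rw [h4, one_mul] at h3
    exact h3
  have h5 : t * R = ‖c‖ ^ 2 := by
    rw [ht]; field_simp
  rw [le_div_iff₀ (by linarith), ← h5]
  nlinarith

end Pool.Agent.R625.AZ
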