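import Pool.Agent.R625.AZ.Dense
import Pool.Agent.R625.AZ.FreeSg
import Pool.Agent.R625.AZ.Semi
import Pool.Agent.TH57.AZ.Wedge

/-!
A counterexample gives one whose support minus the identity generates a free semigroup and whose
constant coefficient is almost dominant.
-/

set_option autoImplicit false
set_option linter.unusedSectionVars false

open scoped InnerProductSpace ENNReal

namespace Pool.Agent.R625.AZ

open Pool.Agent.TH57.AZ
open Pool.Agent.W656.VA
open Pool.Agent.H80R2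
open Pool.Agent.H80R2.BC (L2 GMat vdim IsTr LInv Equi act kerA pt vals Generic TorDiv)
open Pool.Agent.H812R3

variable {G : Type} [Group G]

theorem inj_to : Function.Injective (fun p : Unit × G => p.2⁻¹) := by
  rintro ⟨⟨⟩, a⟩ ⟨⟨⟩, b⟩ h
  simpa using h

theorem inj_fro : Function.Injective (fun g : G => (((), g⁻¹) : Unit × G)) := by
  intro a b h
  simpa using h

/-- from functions on `G` to functions on `Unit × G`, with an inversion -/
noncomputable def cto : lp (fun _ : G => ℂ) 2 →L[ℂ] L2 (Unit × G) :=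
  KP.pull (fun p : Unit × G => p.2⁻¹) inj_to

/-- the inverse -/
noncomputable def cfro : L2 (Unit × G) →L[ℂ] lp (fun _ : G => ℂ) 2 :=
  KP.pull (fun g : G => (((), g⁻¹) : Unit × G)) inj_fro

theorem cto_apply (f : lp (fun _ : G => ℂ) 2) (g : G) : cto f ((), g) = f g⁻¹ := rfl

theorem cfro_apply (f : L2 (Unit × G)) (g : G) : cfro f g = f ((), g⁻¹) := rfl

theorem act_M1 (x : G →₀ ℂ) (f : Unit × G → ℂ) (g : G) :
    act (M1 x) f () g = x.sum (fun h c => c * f ((), g * h)) := by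
  unfold act M1
  simp only [Finset.univ_unique, PUnit.default_eq_unit, Finset.sum_singleton]

theorem cto_mem (x : G →₀ ℂ) (f : lp (fun _ : G => ℂ) 2) (hf : f ∈ kern x) :
    cto f ∈ kerA (M1 x) := by
  rw [mem_kerA]
  rintro ⟨⟩ g
  rw [act_M1]
  have h := (kern_iff x f).1 hf g⁻¹
  rw [← h]
  refine Finset.sum_congr rfl fun k _ => ?_
  show x k * cto f ((), g * k) = x k * f (k⁻¹ * g⁻¹)
  rw [cto_apply, mul_inv_rev]

theorem cfro_mem (x : G →₀ ℂ) (f : L2 (Unit × G)) (hf : f ∈ kerA (M1 x)) :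
    cfro f ∈ kern x := by
  rw [kern_iff]
  intro g
  have h := (mem_kerA (M1 x) f).1 hf () g⁻¹
  rw [act_M1] at h
  rw [← h]
  refine Finset.sum_congr rfl fun k _ => ?_
  show x k * cfro f (k⁻¹ * g) = x k * f ((), g⁻¹ * k)
  rw [cfro_apply, mul_inv_rev, inv_inv]

theorem inner_cto (u : lp (fun _ : G => ℂ) 2) (x : L2 (Unit × G)) :
    ⟪cto u, x⟫_ℂ = ⟪u, cfro x⟫_ℂ := by
  rw [lp.inner_eq_tsum, lp.inner_eq_tsum]
  rw [← ((Equiv.inv G).trans (Equiv.uniqueProd G Unit).symm).tsum_eq]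
  refine tsum_congr fun g => ?_
  show ⟪cto u ((), g⁻¹), x ((), g⁻¹)⟫_ℂ = ⟪u g, cfro x g⟫_ℂ
  rw [cto_apply, inv_inv, cfro_apply]

/-- **The two kernel dimensions agree.** -/
theorem vdim_eq_kd (x : G →₀ ℂ) : vdim (kerA (M1 x)) = kd x := by
  obtain ⟨u, hu, h1, -, h3⟩ := exists_repr x
  rw [vdim_of_vec (isClosed_kerA (M1 x)) (fun _ => cto u) (fun _ => cto_mem x u hu)]
  · simp only [Finset.univ_unique, PUnit.default_eq_unit, Finset.sum_singleton]
    rw [cto_apply, inv_one, h1, Complex.ofReal_re]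
  · rintro ⟨⟩ f hf
    rw [inner_cto, h3 _ (cfro_mem x f hf), cfro_apply, inv_one]

/-- the kernel of a nonzero element is not everything -/
theorem kd_lt_one (x : G →₀ ℂ) (h0 : x ≠ 0) : kd x < 1 := by
  classical
  refine lt_of_le_of_ne (kd_le_one x) fun h => h0 ?_
  obtain ⟨u, hu, h1, h2⟩ := exists_proj x
  have h3 := norm_sub_sq_single (1 : G) u
  rw [h1, Complex.ofReal_re, h2, h] at h3
  have h4 : u = lp.single 2 (1 : G) (1 : ℂ) := by
    have h5 : ‖(lp.single 2 (1 : G) (1 : ℂ) : lp (fun _ : G => ℂ) 2) - u‖ ^ 2 = 0 := by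
      rw [h3]
      norm_num
    have h6 := norm_eq_zero.1 (pow_eq_zero_iff (two_ne_zero)|>.1 h5)
    exact (sub_eq_zero.1 h6).symm
  ext g
  have h7 := (kern_iff x u).1 hu g
  rw [Finsupp.sum, Finset.sum_eq_single g] at h7
  · have h8 : u (g⁻¹ * g) = 1 := by
      rw [inv_mul_cancel, h4]
      simp [lp.single_apply]
    rw [h8, mul_one] at h7
    exact h7
  · intro k _ hk
    have h8 : u (k⁻¹ * g) = 0 := by
      rw [h4, lp.single_apply, Pi.single_eq_of_ne]
      intro h9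
      exact hk (inv_mul_eq_one.1 h9)
    rw [h8, mul_zero]
  · intro hg
    rw [Finsupp.notMem_support_iff.1 hg, zero_mul]

/-- large kernel dimension with small complement -/
theorem small (C : (G : Type) → [Group G] → Prop)
    (hpow : ∀ (G : Type) [Group G] (n : ℕ), C G → C (Fin n → G))
    (G : Type) [Group G] (hG : C G) (α : G →₀ ℂ) (h0 : α ≠ 0) (hk : 0 < kd α) (η : ℝ)
    (hη : 0 < η) :
    ∃ (G' : Type) (_ : Group G') (x : G' →₀ ℂ) (ρ : ℝ), C G' ∧ 0 < ρ ∧ ρ ≤ η ∧
      vdim (kerA (M1 x)) = 1 - ρ := by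
  obtain ⟨m, hm⟩ := exists_pow_lt_of_lt_one hη (by linarith : 1 - kd α < 1)
  refine ⟨Fin m → G, inferInstance, tpF m α, 1 - kd (tpF m α), hpow G m hG, ?_, ?_, ?_⟩
  · have := kd_lt_one (tpF m α) (tpF_ne_zero m h0)
    linarith
  · have := kd_tpF m α
    linarith
  · rw [vdim_eq_kd]
    ring

/-- the number of rows -/
theorem choose_k (ρ η t b : ℝ) (h : 0 < ρ) (h1 : ρ ≤ η) (h2 : t < b - η) (ht : 0 < t) :
    ∃ k : ℕ, 1 ≤ k ∧ t < k * ρ ∧ k * ρ < b := by
  have hb : 0 < b := by linarith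
  have hpos : 0 < b / ρ := by positivity
  have hn : 0 < ⌈b / ρ⌉₊ := Nat.ceil_pos.2 hpos
  obtain ⟨k, hk⟩ := Nat.exists_eq_succ_of_ne_zero hn.ne'
  have h3 := Nat.ceil_lt_add_one hpos.le
  have h4 := Nat.le_ceil (b / ρ)
  rw [hk] at h3 h4
  push_cast at h3 h4
  have h5 : (k : ℝ) < b / ρ := by linarith
  have h6 : (k : ℝ) * ρ < b := by
    rwa [lt_div_iff₀ h] at h5
  have h7 : b ≤ ((k : ℝ) + 1) * ρ := by
    rwa [div_le_iff₀ h] at h4
  have h8 : t < k * ρ := by nlinarith
  refine ⟨k, ?_, h8, h6⟩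
  rcases Nat.eq_zero_or_pos k with h9 | h9
  · exfalso
    rw [h9] at h8
    simp at h8
    linarith
  · exact h9

theorem kern_of_rel {ι : Type} [Fintype ι] (s : ι → G) (c : ℂ) (a : ι → ℂ)
    (u : lp (fun _ : G => ℂ) 2) (h : ∀ g, c * u g + ∑ i, a i * u ((s i)⁻¹ * g) = 0) :
    u ∈ kern (el s c a) := by
  classical
  rw [kern_iff]
  intro g
  unfold el
  rw [Finsupp.sum_add_index' (fun _ => by simp) (fun _ _ _ => by ring),
    Finsupp.sum_single_index (by simp),
    ← Finsupp.sum_finsetSum_index (fun _ => by simp) (fun _ _ _ => by ring)]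
  simp only [inv_one, one_mul]
  rw [← h g]
  congr 1
  refine Finset.sum_congr rfl fun i _ => ?_
  rw [Finsupp.sum_single_index (by simp)]

/-- the splitting of the value at one -/
theorem split (γ : G →₀ ℂ) (h1 : γ 1 = 1) (F : G → ℂ) :
    γ.sum (fun h c => c * F h) = F 1 + (γ.erase 1).sum (fun h c => c * F h) := by
  rw [← Finsupp.add_sum_erase' γ 1 (fun h c => c * F h) (fun _ => zero_mul _), h1, one_mul]

/-- **The free semigroup element.** -/
theorem final {Γ κ : Type} [Group Γ] [Fintype κ] (A : GMat κ Unit Γ) (v : ℝ)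
    (hv : vdim (kerA A) = v) (hv1 : v < 1) (c0 : ℝ) (hc : 1 / (1 - v) < c0) :
    ∃ (ι : Type) (_ : Fintype ι) (s : ι → Monoid.Coprod Γ (FreeGroup (Fin 1))) (a : ι → ℂ),
      Function.Injective (FreeMonoid.lift s) ∧ ∑ i, ‖a i‖ ^ 2 ≤ (c0 - 1) ^ 2 ∧
      2 * v - 1 ≤ kd (el s 1 a) := by
  classical
  obtain ⟨γ, hγ, hγ1, hγ2⟩ := dense A v hv hv1 c0 hc
  set D := γ.erase 1 with hD
  set inl : Γ →* Monoid.Coprod Γ (FreeGroup (Fin 1)) := Monoid.Coprod.inl with hinl
  have hinj : Function.Injective inl := Monoid.Coprod.inl_injective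
  set w : FreeGroup (Fin 1) := FreeGroup.of 0 with hw
  have hw1 : w ≠ 1 := FreeGroup.of_ne_one 0
  set W : Monoid.Coprod Γ (FreeGroup (Fin 1)) := Monoid.Coprod.inr w with hW
  have hnot : ∀ h ∈ D.support, h ≠ 1 := by
    intro h hh
    rw [hD, Finsupp.support_erase] at hh
    exact (Finset.mem_erase.1 hh).1
  -- the two kernels
  set K1 := kerA (BC.push inl (M1 γ)) with hK1
  set K2 := kerA (M1 (γ.mapDomain (fun h => inl h * W⁻¹))) with hK2
  have mem1 : ∀ f : L2 (Unit × Monoid.Coprod Γ (FreeGroup (Fin 1))), f ∈ K1 ↔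
      ∀ g, γ.sum (fun h c => c * f ((), g * inl h)) = 0 := by
    intro f
    rw [hK1, mem_kerA]
    have e : ∀ g, act (BC.push inl (M1 γ)) f () g =
        γ.sum (fun h c => c * f ((), g * inl h)) := by
      intro g
      rw [act_push]
      simp only [Finset.univ_unique, PUnit.default_eq_unit, Finset.sum_singleton]
      rfl
    constructor
    · intro h g
      rw [← e]
      exact h () g
    · rintro h ⟨⟩ g
      rw [e]
      exact h g
  have mem2 : ∀ f : L2 (Unit × Monoid.Coprod Γ (FreeGroup (Fin 1))), f ∈ K2 ↔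
      ∀ g, γ.sum (fun h c => c * f ((), g * (inl h * W⁻¹))) = 0 := by
    intro f
    rw [hK2, mem_kerA]
    constructor
    · intro h g
      have h2 := h () g
      rw [act_M1, sum_map (fun h => inl h * W⁻¹) γ (fun h => f ((), g * h))] at h2
      exact h2
    · rintro h ⟨⟩ g
      rw [act_M1, sum_map (fun h => inl h * W⁻¹) γ (fun h => f ((), g * h))]
      exact h g
  have d1 : v ≤ vdim K1 := by
    rw [hK1, vdim_push inl hinj, ← hv]
    refine vdim_mono fun f hf => ?_
    rw [mem_kerA]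
    rintro ⟨⟩ g
    rw [act_M1]
    exact hγ f hf g
  have d2 : vdim K1 ≤ vdim K2 := by
    refine vdim_inj_le (isClosed_kerA _) (linv_kerA _) (op (M1 (Finsupp.single W 1)))
      (equi_op _) (isClosed_kerA _) ?_ ?_
    · intro f hf
      have hf' := (mem1 f).1 hf
      refine (mem2 _).2 fun g => ?_
      rw [← hf' g]
      refine Finset.sum_congr rfl fun h _ => ?_
      show γ h * op (M1 (Finsupp.single W 1)) f ((), g * (inl h * W⁻¹)) =
        γ h * f ((), g * inl h)
      rw [op_apply, act_M1, Finsupp.sum_single_index (by simp), one_mul]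
      congr 3
      group
    · intro f _ h0
      ext ⟨⟨⟩, g⟩
      have h2 : op (M1 (Finsupp.single W 1)) f ((), g * W⁻¹) = f ((), g) := by
        rw [op_apply, act_M1, Finsupp.sum_single_index (by simp), one_mul,
          inv_mul_cancel_right]
      rw [← h2, h0]
      rfl
  have d3 : vdim K1 + vdim K2 ≤ vdim (K1 ⊓ K2) + vdim (⊤ : Submodule ℂ
      (L2 (Unit × Monoid.Coprod Γ (FreeGroup (Fin 1))))) :=
    vdim_super (isClosed_kerA _) (linv_kerA _) (isClosed_kerA _) (linv_kerA _)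
      (by exact isClosed_univ) le_top le_top
  rw [vdim_top, Fintype.card_unit, Nat.cast_one] at d3
  -- the index set
  refine ⟨{p : Γ × Γ // p ∈ D.support ×ˢ D.support}, inferInstance,
    fun p => sw w ⟨p.1, hnot _ (Finset.mem_product.1 p.2).1, hnot _ (Finset.mem_product.1 p.2).2⟩,
    fun p => -(D p.1.1 * D p.1.2), ?_, ?_, ?_⟩
  · refine free_sw w hw1 (fun p : {p : Γ × Γ // p ∈ D.support ×ˢ D.support} =>
      (⟨p.1, hnot _ (Finset.mem_product.1 p.2).1, hnot _ (Finset.mem_product.1 p.2).2⟩ : Pr Γ)) ?_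
    intro a b h
    exact Subtype.ext (congrArg (fun z : Pr Γ => z.1) h)
  · have e1 : ∑ p : {p : Γ × Γ // p ∈ D.support ×ˢ D.support}, ‖-(D p.1.1 * D p.1.2)‖ ^ 2 =
        (∑ h ∈ D.support, ‖D h‖ ^ 2) ^ 2 := by
      rw [Finset.sum_coe_sort (D.support ×ˢ D.support) (fun p : Γ × Γ => ‖-(D p.1 * D p.2)‖ ^ 2),
        Finset.sum_product, sq, Finset.sum_mul_sum]
      refine Finset.sum_congr rfl fun x _ => Finset.sum_congr rfl fun y _ => ?_
      rw [norm_neg, norm_mul, mul_pow]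
    rw [e1]
    have e2 : 1 + ∑ h ∈ D.support, ‖D h‖ ^ 2 ≤ c0 := by
      refine le_trans (le_of_eq ?_) hγ2
      rw [← Finsupp.add_sum_erase' γ 1 (fun _ z => ‖z‖ ^ 2) (fun _ => by simp), hγ1, norm_one,
        one_pow]
      rfl
    exact pow_le_pow_left₀ (Finset.sum_nonneg fun _ _ => by positivity) (by linarith) 2
  · rw [← vdim_eq_kd]
    refine le_trans (by linarith) (vdim_mono (K := K1 ⊓ K2) fun F hF => ?_)
    have hF1 := (mem1 F).1 hF.1
    have hF2 := (mem2 F).1 hF.2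
    -- the two relations
    have r1 : ∀ g, F ((), g) = - D.sum (fun h c => c * F ((), g * inl h)) := by
      intro g
      have h := hF1 g
      rw [split γ hγ1 (fun h => F ((), g * inl h)), map_one, mul_one] at h
      exact eq_neg_of_add_eq_zero_left h
    have r2 : ∀ g, F ((), g) = - D.sum (fun h c => c * F ((), g * W * inl h * W⁻¹)) := by
      intro g
      have h := hF2 (g * W)
      rw [split γ hγ1 (fun h => F ((), g * W * (inl h * W⁻¹))), map_one, one_mul,
        mul_inv_cancel_right] at h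
      simp only [← mul_assoc] at h
      exact eq_neg_of_add_eq_zero_left h
    have hFe : F = cto (cfro F) := by
      ext ⟨⟨⟩, g⟩
      rw [cto_apply, cfro_apply, inv_inv]
    rw [hFe]
    refine cto_mem _ _ (kern_of_rel _ _ _ _ fun g => ?_)
    simp only [cfro_apply, one_mul, mul_inv_rev, inv_inv]
    have e3 := Finset.sum_coe_sort (D.support ×ˢ D.support) (fun p : Γ × Γ =>
      -(D p.1 * D p.2) * F ((), g⁻¹ * (inl p.1 * W * inl p.2 * Monoid.Coprod.inr w⁻¹)))
    refine (congrArg (fun z => F ((), g⁻¹) + z) e3).trans ?_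
    show F ((), g⁻¹) + ∑ p ∈ D.support ×ˢ D.support,
      -(D p.1 * D p.2) * F ((), g⁻¹ * (inl p.1 * W * inl p.2 * Monoid.Coprod.inr w⁻¹)) = 0
    rw [Finset.sum_product]
    rw [r1 g⁻¹, Finsupp.sum, neg_add_eq_zero]
    refine Finset.sum_congr rfl fun x _ => ?_
    rw [r2 (g⁻¹ * inl x), Finsupp.sum, mul_neg, Finset.mul_sum, ← Finset.sum_neg_distrib]
    refine Finset.sum_congr rfl fun y _ => ?_
    rw [map_inv, ← hW]
    simp only [← mul_assoc]
    ring

/-- **The main construction.** -/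
theorem main (C : (G : Type) → [Group G] → Prop)
    (hpow : ∀ (G : Type) [Group G] (n : ℕ), C G → C (Fin n → G))
    (hfree : ∀ (G : Type) [Group G] (m : ℕ), C G → C (Monoid.Coprod G (FreeGroup (Fin m))))
    (G : Type) [Group G] (hG : C G) (α : G →₀ ℂ) (h0 : α ≠ 0) (hk : 0 < kd α) (R δ : ℝ)
    (hR : 1 < R) (hδ : δ < (√R - 1) / (√R + 1)) :
    ∃ (Γ : Type) (_ : Group Γ) (ι : Type) (_ : Fintype ι) (s : ι → Γ) (a : ι → ℂ),
      C Γ ∧ Function.Injective (FreeMonoid.lift s) ∧ ∑ i, ‖a i‖ ^ 2 ≤ R ∧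
      δ < kd (el s 1 a) := by
  have hR0 : 0 < √R := Real.sqrt_pos.2 (by linarith)
  have hR1 : 0 < √R + 1 := by linarith
  have hR2 : √R ^ 2 = R := Real.sq_sqrt (by linarith)
  set t : ℝ := 1 / (√R + 1) with ht
  have ht0 : 0 < t := by positivity
  set b : ℝ := min ((1 - δ) / 2) (1 / 2) with hb
  have hsq1 : 1 < √R := by
    rw [show (1 : ℝ) = √1 by simp]
    exact Real.sqrt_lt_sqrt (by norm_num) hR
  have e1 : (√R - 1) / (√R + 1) = 1 - 2 * t := by
    rw [ht]
    field_simp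
    ring
  have hb1 : t < b := by
    rw [hb, lt_min_iff]
    constructor
    · rw [e1] at hδ
      linarith
    · rw [ht, div_lt_div_iff₀ hR1 (by norm_num)]
      linarith
  obtain ⟨G', _, x, ρ, hC', hρ0, hρ1, hx⟩ := small C hpow G hG α h0 hk ((b - t) / 2)
    (by linarith)
  obtain ⟨k, hk1, hk2, hk3⟩ := choose_k ρ ((b - t) / 2) t b hρ0 hρ1 (by linarith) ht0
  have hb2 : b ≤ 1 / 2 := min_le_right _ _
  have hb3 : b ≤ (1 - δ) / 2 := min_le_left _ _
  obtain ⟨Γ, _, κ, _, A, y, hC, hA, -⟩ := many C hfree G' hC' x ρ hx k hk1 (by linarith)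
  obtain ⟨ι, iι, s, a, hs, ha, hkd⟩ := final A (1 - k * ρ) hA (by linarith) (√R + 1) (by
    rw [sub_sub_cancel, div_lt_iff₀ (by linarith)]
    rw [ht, div_lt_iff₀ hR1] at hk2
    linarith)
  refine ⟨Monoid.Coprod Γ (FreeGroup (Fin 1)), inferInstance, ι, iι, s, a, hfree Γ 1 hC, hs, ?_,
    ?_⟩
  · rw [add_sub_cancel_right, hR2] at ha
    exact ha
  · linarith

end Pool.Agent.R625.AZ
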